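import Pool.Agent.H313R3.TK.C

/-!
# The summatory function of the Liouville function: `∑_n L(w/n)` is the number of squares up to `w`
-/

open Complex MeasureTheory Filter Topology Set

set_option autoImplicit false

namespace Pool.Agent.V1185.Lio

open H313.TK

noncomputable section

/-- summatory function of the Liouville function -/
def LL (y : ℝ) : ℝ := ∑ n ∈ Finset.Icc 1 ⌊y⌋₊, ((ArithmeticFunction.liouville n : ℤ) : ℝ)

/-- exponential scale -/
def ll (u : ℝ) : ℝ := LL (Real.exp u)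

/-- number of squares up to `e^u` -/
def NS (u : ℝ) : ℝ := (Nat.sqrt ⌊Real.exp u⌋₊ : ℝ)

theorem LL_lt_one {y : ℝ} (h : y < 1) : LL y = 0 := by
  unfold LL
  rw [Nat.floor_eq_zero.2 h]
  simp

theorem abs_liou (n : ℕ) : |((ArithmeticFunction.liouville n : ℤ) : ℝ)| ≤ 1 := by
  rcases eq_or_ne n 0 with h | h
  · rw [h]; simp
  · rw [ArithmeticFunction.liouville_apply h]
    simp

theorem abs_LL_le {y : ℝ} (h : 0 ≤ y) : |LL y| ≤ y := by
  unfold LL
  refine (Finset.abs_sum_le_sum_abs _ _).trans ?_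
  refine (Finset.sum_le_sum fun n _ => abs_liou n).trans ?_
  rw [Finset.sum_const, Nat.card_Icc]
  simp
  exact Nat.floor_le h

theorem LL_meas : Measurable LL := by
  have e : LL = (fun m : ℕ => ∑ k ∈ Finset.Icc 1 m, ((ArithmeticFunction.liouville k : ℤ) : ℝ)) ∘ (fun y : ℝ => ⌊y⌋₊) := rfl
  rw [e]
  exact (measurable_of_countable _).comp Nat.measurable_floor

theorem ll_meas : Measurable ll := LL_meas.comp Real.measurable_exp

theorem ll_neg {u : ℝ} (h : u < 0) : ll u = 0 := LL_lt_one (by rwa [Real.exp_lt_one_iff])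

theorem abs_ll_le (u : ℝ) : |ll u| ≤ Real.exp u := abs_LL_le (Real.exp_pos u).le

/-- the divisor sums of the Liouville function are the indicator function of the squares -/
theorem sum_liou : ∀ n : ℕ, n ≠ 0 →
    (ArithmeticFunction.liouville * ((ArithmeticFunction.zeta : ArithmeticFunction ℕ) : ArithmeticFunction ℤ)) n =
      if IsSquare n then 1 else 0 := by
  have hmul : (ArithmeticFunction.liouville * ((ArithmeticFunction.zeta : ArithmeticFunction ℕ) : ArithmeticFunction ℤ)).IsMultiplicative :=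
    ArithmeticFunction.isMultiplicative_liouville.mul (ArithmeticFunction.isMultiplicative_zeta.natCast)
  intro n
  induction n using Nat.recOnPosPrimePosCoprime with
  | zero => intro h; exact absurd rfl h
  | one => intro _; rw [hmul.1, if_pos ⟨1, rfl⟩]
  | prime_pow p k hp hk =>
    intro _
    rw [ArithmeticFunction.coe_mul_zeta_apply, Nat.sum_divisors_prime_pow hp]
    have h1 : ∀ i ∈ Finset.range (k + 1), ArithmeticFunction.liouville (p ^ i) = (-1) ^ i := by
      intro i _
      rw [ArithmeticFunction.liouville_apply (pow_ne_zero _ hp.ne_zero), ArithmeticFunction.cardFactors_apply_prime_pow hp]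
    rw [Finset.sum_congr rfl h1, neg_one_geom_sum]
    have h2 : IsSquare (p ^ k) ↔ Even k := by
      constructor
      · rintro ⟨r, hr⟩
        have h3 := congrArg (fun m => m.factorization p) hr
        have hr0 : r ≠ 0 := by
          rintro rfl
          simp at hr
          exact absurd hr.1 hp.ne_zero
        simp only [Nat.factorization_mul hr0 hr0, Nat.factorization_pow, Finsupp.coe_add, Pi.add_apply,
          Finsupp.smul_apply, hp.factorization_self, smul_eq_mul, mul_one] at h3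
        exact ⟨_, h3⟩
      · rintro ⟨r, hr⟩
        exact ⟨p ^ r, by rw [hr, pow_add]⟩
    rcases Nat.even_or_odd k with hk | hk
    · rw [if_pos (h2.2 hk), if_neg (by
        rw [Nat.not_even_iff_odd]; exact hk.add_one)]
    · rw [if_pos hk.add_one, if_neg (by rw [h2, Nat.not_even_iff_odd]; exact hk)]
  | coprime a b ha hb hab iha ihb =>
    intro _
    rw [hmul.2 hab, iha (by omega), ihb (by omega)]
    have h2 : IsSquare (a * b) ↔ IsSquare a ∧ IsSquare b := by
      constructor
      · rintro ⟨r, hr⟩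
        obtain ⟨a0, h3⟩ := exists_eq_pow_of_mul_eq_pow (Nat.isUnit_iff.2 hab) (by rw [hr, sq] : a * b = r ^ 2)
        obtain ⟨b0, h4⟩ := exists_eq_pow_of_mul_eq_pow (Nat.isUnit_iff.2 hab.symm) (by rw [mul_comm, hr, sq] : b * a = r ^ 2)
        exact ⟨⟨a0, by rw [h3, sq]⟩, ⟨b0, by rw [h4, sq]⟩⟩
      · rintro ⟨⟨r, hr⟩, ⟨s, hs⟩⟩
        exact ⟨r * s, by rw [hr, hs]; ring⟩
    by_cases h5 : IsSquare a <;> by_cases h6 : IsSquare b <;> simp [h2, h5, h6]

theorem count_sq (N : ℕ) : ∑ n ∈ Finset.Ioc 0 N, (if IsSquare n then (1:ℝ) else 0) = (Nat.sqrt N : ℝ) := by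
  rw [Finset.sum_ite, Finset.sum_const_zero, add_zero, Finset.sum_const, nsmul_eq_mul, mul_one]
  norm_cast
  have h : (Finset.Ioc 0 N).filter (fun n => IsSquare n) = (Finset.Ioc 0 (Nat.sqrt N)).image (fun m => m * m) := by
    ext k
    simp only [Finset.mem_filter, Finset.mem_Ioc, Finset.mem_image]
    constructor
    · rintro ⟨⟨h1, h2⟩, ⟨r, hr⟩⟩
      refine ⟨r, ⟨?_, ?_⟩, hr.symm⟩
      · by_contra hcon
        have : r = 0 := by omega
        rw [this] at hr
        omega
      · rw [Nat.le_sqrt]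
        omega
    · rintro ⟨m, ⟨h1, h2⟩, rfl⟩
      rw [Nat.le_sqrt] at h2
      exact ⟨⟨Nat.mul_pos h1 h1, h2⟩, ⟨m, rfl⟩⟩
  rw [h, Finset.card_image_of_injective _ (fun a b hab => Nat.mul_self_inj.1 hab), Nat.card_Ioc]
  rfl

theorem LL_hasSum (w : ℝ) (_hw : 0 ≤ w) :
    HasSum (fun n : ℕ => LL (w / ((n : ℝ) + 1))) (Nat.sqrt ⌊w⌋₊ : ℝ) := by
  set N := ⌊w⌋₊ with hN
  have hz : ∀ n ∉ Finset.range N, LL (w / ((n : ℝ) + 1)) = 0 := by
    intro n hn
    rw [Finset.mem_range, not_lt] at hn
    apply LL_lt_one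
    rw [div_lt_one (by positivity)]
    have h1 := Nat.lt_floor_add_one w
    have h2 : (⌊w⌋₊ : ℝ) ≤ n := by exact_mod_cast hn
    linarith
  have h1 : HasSum (fun n : ℕ => LL (w / ((n : ℝ) + 1))) (∑ n ∈ Finset.range N, LL (w / ((n : ℝ) + 1))) :=
    hasSum_sum_of_ne_finset_zero hz
  have h2 : ∑ n ∈ Finset.range N, LL (w / ((n : ℝ) + 1)) = (Nat.sqrt N : ℝ) := by
    have h3 : ∀ n ∈ Finset.range N, LL (w / ((n : ℝ) + 1)) =
        ∑ m ∈ Finset.Ioc 0 (N / (n + 1)), ((ArithmeticFunction.liouville m : ℤ) : ℝ) := by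
      intro n _
      unfold LL
      have h4 : ⌊w / ((n : ℝ) + 1)⌋₊ = N / (n + 1) := by
        have := Nat.floor_div_natCast w (n + 1)
        push_cast at this
        exact this
      rw [h4]
      rfl
    rw [Finset.sum_congr rfl h3]
    have h5 := ArithmeticFunction.sum_Ioc_mul_eq_sum_sum (R := ℤ)
      ((ArithmeticFunction.zeta : ArithmeticFunction ℕ) : ArithmeticFunction ℤ)
      (ArithmeticFunction.liouville) N
    have h6 : ∑ n ∈ Finset.range N, ∑ m ∈ Finset.Ioc 0 (N / (n + 1)), (ArithmeticFunction.liouville m : ℤ) =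
        ∑ n ∈ Finset.Ioc 0 N, (((ArithmeticFunction.zeta : ArithmeticFunction ℕ) : ArithmeticFunction ℤ) n) *
          ∑ m ∈ Finset.Ioc 0 (N / n), (ArithmeticFunction.liouville m : ℤ) := by
      rw [Finset.range_eq_Ico, Finset.sum_Ico_add' (fun n => ∑ m ∈ Finset.Ioc 0 (N / n), (ArithmeticFunction.liouville m : ℤ)) 0 N 1]
      have h7 : Finset.Ico (0 + 1) (N + 1) = Finset.Ioc 0 N := by
        ext k
        simp only [Finset.mem_Ico, Finset.mem_Ioc]
        omega
      rw [h7]
      refine Finset.sum_congr rfl fun n hn => ?_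
      rw [Finset.mem_Ioc] at hn
      have h8 : (((ArithmeticFunction.zeta : ArithmeticFunction ℕ) : ArithmeticFunction ℤ) n) = 1 := by
        rw [ArithmeticFunction.natCoe_apply, ArithmeticFunction.zeta_apply, if_neg (by omega)]
        simp
      rw [h8, one_mul]
    have h9 : ∑ n ∈ Finset.Ioc 0 N, (((ArithmeticFunction.zeta : ArithmeticFunction ℕ) : ArithmeticFunction ℤ) *
        ArithmeticFunction.liouville) n = ∑ n ∈ Finset.Ioc 0 N, (if IsSquare n then (1:ℤ) else 0) := by
      refine Finset.sum_congr rfl fun n hn => ?_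
      rw [Finset.mem_Ioc] at hn
      rw [mul_comm]
      exact sum_liou n (by omega)
    rw [h9, ← h6] at h5
    have h10 := count_sq N
    have h11 := congrArg (fun z : ℤ => (z : ℝ)) h5
    simp only [Int.cast_sum, Int.cast_ite, Int.cast_one, Int.cast_zero] at h11
    rw [← h11, h10]
  rwa [h2] at h1

theorem NS_nonneg (u : ℝ) : 0 ≤ NS u := Nat.cast_nonneg _

theorem NS_neg {u : ℝ} (h : u < 0) : NS u = 0 := by
  unfold NS
  rw [Nat.floor_eq_zero.2 (by rwa [Real.exp_lt_one_iff])]
  simp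

theorem NS_meas : Measurable NS := by
  have e : NS = (fun m : ℕ => (Nat.sqrt m : ℝ)) ∘ (fun y : ℝ => ⌊y⌋₊) ∘ Real.exp := rfl
  rw [e]
  exact (measurable_of_countable _).comp (Nat.measurable_floor.comp Real.measurable_exp)

theorem NS_eq (u : ℝ) : NS u = (⌊Real.exp (u / 2)⌋₊ : ℝ) := by
  unfold NS
  congr 1
  have h1 : Real.exp u = Real.exp (u / 2) * Real.exp (u / 2) := by rw [← Real.exp_add]; congr 1; ring
  have hp := (Real.exp_pos (u / 2)).le
  refine (Nat.eq_sqrt.2 ⟨?_, ?_⟩).symm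
  · refine Nat.le_floor ?_
    rw [h1]
    push_cast
    exact mul_le_mul (Nat.floor_le hp) (Nat.floor_le hp) (Nat.cast_nonneg _) hp
  · rw [Nat.floor_lt (Real.exp_pos u).le, h1]
    push_cast
    have := Nat.lt_floor_add_one (Real.exp (u / 2))
    exact mul_lt_mul'' this this hp hp

theorem NS_le (u : ℝ) : NS u ≤ Real.exp (u / 2) := by
  rw [NS_eq]
  exact Nat.floor_le (Real.exp_pos _).le

theorem NS_ge (u : ℝ) : Real.exp (u / 2) - 1 ≤ NS u := by
  rw [NS_eq]
  have := Nat.lt_floor_add_one (Real.exp (u / 2))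
  linarith

end

end Pool.Agent.V1185.Lio
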