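import Pool.Agent.V1185.Lio.A
import Pool.Agent.H313R3.TK.G

/-!
# Averages of the Liouville sum against the theta kernel
-/

open Complex MeasureTheory Filter Topology Set

set_option autoImplicit false

namespace Pool.Agent.V1185.Lio

open H313.TK

noncomputable section

/-- **The identity for the Liouville function.** -/
theorem moebL {g : ℝ → ℂ} (hg : QQ g) (t : ℝ) :
    ∫ v : ℝ, (ll (t - v) : ℂ) * Sg g v = ∫ z : ℝ, (NS (t - z) : ℂ) * g z := by
  obtain ⟨C, hC, hb⟩ := hg.term t
  have hc := hg.cont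
  have hm := ll_meas
  set F : ℕ → ℝ → ℂ := fun n v => (ll (t - v) : ℂ) * g (v - Real.log ((n : ℝ) + 1)) with hF
  have hz : ∀ n v, t < v → F n v = 0 := by
    intro n v hv
    simp only [hF]
    rw [ll_neg (by linarith)]
    simp
  have hFb : ∀ n : ℕ, ∀ v : ℝ, ‖F n v‖ ≤ (Iic t).indicator (fun v => C * Real.exp t * (1 / ((n : ℝ) + 1) ^ 2) * Real.exp (1 * v)) v := by
    intro n v
    by_cases hv : v ≤ t
    · rw [indicator_of_mem (show v ∈ Iic t from hv)]
      simp only [hF]
      rw [norm_mul, Complex.norm_real, Real.norm_eq_abs]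
      calc |ll (t - v)| * ‖g (v - Real.log ((n : ℝ) + 1))‖ ≤
            Real.exp (t - v) * (C * Real.exp (2 * v) * (1 / ((n : ℝ) + 1) ^ 2)) :=
            mul_le_mul (abs_ll_le _) (hb v hv n) (norm_nonneg _) (Real.exp_pos _).le
        _ = C * (1 / ((n : ℝ) + 1) ^ 2) * (Real.exp (t - v) * Real.exp (2 * v)) := by ring
        _ = C * (1 / ((n : ℝ) + 1) ^ 2) * (Real.exp t * Real.exp (1 * v)) := by
            rw [← Real.exp_add, ← Real.exp_add]; congr 2; ring
        _ = _ := by ring
    · rw [hz n v (not_le.1 hv), norm_zero, indicator_of_notMem (show v ∉ Iic t from hv)]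
  have hFm : ∀ n, AEStronglyMeasurable (F n) volume := fun n => by
    simp only [hF]
    exact (by fun_prop : Measurable fun v => (ll (t - v) : ℂ) * g (v - Real.log ((n : ℝ) + 1))).aestronglyMeasurable
  have hdom : ∀ n : ℕ, Integrable ((Iic t).indicator (fun v => C * Real.exp t * (1 / ((n : ℝ) + 1) ^ 2) * Real.exp (1 * v))) := by
    intro n
    rw [integrable_indicator_iff measurableSet_Iic]
    exact (integrableOn_exp_mul_Iic one_pos t).const_mul _
  have hFi : ∀ n, Integrable (F n) := fun n => (hdom n).mono' (hFm n) (ae_of_all _ (hFb n))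
  have hFs : Summable (fun n => ∫ z, ‖F n z‖) := by
    refine Summable.of_nonneg_of_le (fun n => integral_nonneg fun z => norm_nonneg _) (fun n => ?_)
      (sum_sq.mul_left (C * Real.exp t * (Real.exp (1 * t) / 1)))
    have h1 := integral_mono (hFi n).norm (hdom n) (hFb n)
    rw [integral_indicator measurableSet_Iic, integral_const_mul, integral_exp_mul_Iic one_pos] at h1
    refine h1.trans (le_of_eq ?_)
    ring
  have key := hasSum_integral_of_summable_integral_norm hFi hFs
  have e1 : ∫ v, ∑' n, F n v = ∫ v : ℝ, (ll (t - v) : ℂ) * Sg g v := by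
    refine integral_congr_ae (ae_of_all _ fun z => ?_)
    simp only [hF, Sg]
    exact tsum_mul_left
  rw [e1] at key
  -- the translates
  set F' : ℕ → ℝ → ℂ := fun n z => (ll (t - z - Real.log ((n : ℝ) + 1)) : ℂ) * g z with hF'
  have hsh : ∀ n, F' n = fun z => F n (z + Real.log ((n : ℝ) + 1)) := by
    intro n
    funext z
    simp only [hF, hF']
    congr 2
    · congr 1
      ring
    · ring
  have hFi' : ∀ n, Integrable (F' n) := fun n => by
    rw [hsh]
    exact (hFi n).comp_add_right _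
  have hI' : ∀ n, ∫ z, F' n z = ∫ z, F n z := by
    intro n
    rw [hsh]
    exact integral_add_right_eq_self (F n) _
  have hIn' : ∀ n, ∫ z, ‖F' n z‖ = ∫ z, ‖F n z‖ := by
    intro n
    rw [hsh]
    exact integral_add_right_eq_self (fun z => ‖F n z‖) _
  have key' := hasSum_integral_of_summable_integral_norm hFi' (by simpa only [hIn'] using hFs)
  simp only [hI'] at key'
  rw [key.unique key']
  refine integral_congr_ae (ae_of_all _ fun z => ?_)
  simp only [hF']
  have h5 := LL_hasSum (Real.exp (t - z)) (Real.exp_pos _).le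
  have h6 : ∀ n : ℕ, ll (t - z - Real.log ((n : ℝ) + 1)) = LL (Real.exp (t - z) / ((n : ℝ) + 1)) := by
    intro n
    unfold ll
    rw [Real.exp_sub, Real.exp_log (by positivity)]
  simp_rw [h6]
  rw [tsum_mul_right, ← Complex.ofReal_tsum, h5.tsum_eq]
  rfl

/-- integral of `e^{|z|} e^{-2|z|}` type bounds -/
theorem expb (t z : ℝ) : Real.exp ((t - z) / 2) * Real.exp (-(2 * |z|)) ≤ Real.exp (t / 2) * Real.exp (-(1 * |z|)) := by
  rw [← Real.exp_add, ← Real.exp_add]
  refine Real.exp_le_exp.2 ?_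
  have := neg_abs_le z
  have := abs_nonneg z
  linarith

/-- the average of the Liouville sum itself is `O(e^{t/2})` -/
theorem avg_ll (t : ℝ) : |∫ v : ℝ, ll (t - v) * kp v| ≤ 48 * (∫ x : ℝ, Real.exp (-(1 * |x|))) * Real.exp (t / 2) := by
  have h1 := moebL qc_QQ t
  rw [← kc_eq] at h1
  have h2 : ∫ v : ℝ, (ll (t - v) : ℂ) * kc v = ((∫ v : ℝ, ll (t - v) * kp v : ℝ) : ℂ) := by
    rw [← integral_complex_ofReal]
    refine integral_congr_ae (ae_of_all _ fun v => ?_)
    simp [kc]
  rw [h2] at h1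
  have h3 : |∫ v : ℝ, ll (t - v) * kp v| = ‖∫ z : ℝ, (NS (t - z) : ℂ) * qc z‖ := by
    rw [← h1, Complex.norm_real, Real.norm_eq_abs]
  rw [h3]
  have hi : Integrable (fun x : ℝ => 48 * Real.exp (t / 2) * Real.exp (-(1 * |x|))) := (int_exp_abs 1 (by norm_num)).const_mul _
  refine (norm_integral_le_of_norm_le hi (ae_of_all _ fun z => ?_)).trans (le_of_eq ?_)
  · rw [norm_mul, Complex.norm_real, Real.norm_eq_abs, abs_of_nonneg (NS_nonneg _)]
    calc NS (t - z) * ‖qc z‖ ≤ Real.exp ((t - z) / 2) * (48 * Real.exp (-(2 * |z|))) :=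
          mul_le_mul (NS_le _) (qq_bd z) (norm_nonneg _) (Real.exp_pos _).le
      _ = 48 * (Real.exp ((t - z) / 2) * Real.exp (-(2 * |z|))) := by ring
      _ ≤ 48 * (Real.exp (t / 2) * Real.exp (-(1 * |z|))) := mul_le_mul_of_nonneg_left (expb t z) (by norm_num)
      _ = _ := by ring
  · rw [integral_const_mul]
    ring

/-- from a twisted average to both parts -/
theorem parts_ofL (g : ℝ → ℂ) (hg : QQ g) (hD : DK (Sg g)) : ∃ c : ℝ, 0 < c ∧ ∃ C : ℝ, ∀ t : ℝ, ∀ s : ℝ, s = 1 ∨ s = -1 →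
    c * ‖∫ z : ℝ, (NS (t - z) : ℂ) * g z‖ - C * Real.exp (t / 2) ≤ ∫ v : ℝ, max (s * ll (t - v)) 0 * kp v := by
  obtain ⟨B, hB, hb⟩ := hD.bd
  set E : ℝ := 48 * ∫ x : ℝ, Real.exp (-(1 * |x|)) with hE
  refine ⟨1 / (4 * (B + 1)), by positivity, E / 2, fun t s hs => ?_⟩
  have hm := ll_meas
  have i1 := avg_int ll ll_meas abs_ll_le t
  have i2 : Integrable (fun v => |ll (t - v)| * kp v) :=
    avg_int (fun u => |ll u|) (by fun_prop) (fun u => by rw [abs_abs]; exact abs_ll_le u) t
  have i3 : Integrable (fun v => max (s * ll (t - v)) 0 * kp v) :=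
    avg_int (fun u => max (s * ll u) 0) (by fun_prop) (fun u => (part_le s hs _).trans (abs_ll_le u)) t
  have e1 : ∫ v, |ll (t - v)| * kp v = 2 * (∫ v, max (s * ll (t - v)) 0 * kp v) - s * ∫ v, ll (t - v) * kp v := by
    rw [← integral_const_mul, ← integral_const_mul, ← integral_sub (i3.const_mul 2) (i1.const_mul s)]
    refine integral_congr_ae (ae_of_all _ fun v => ?_)
    simp only
    rw [part_id s hs (ll (t - v))]
    ring
  have e2 := avg_ll t
  have e3 : |s * ∫ v, ll (t - v) * kp v| ≤ E * Real.exp (t / 2) := by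
    rw [abs_mul]
    have : |s| = 1 := by rcases hs with h | h <;> rw [h] <;> simp
    rw [this, one_mul]
    exact e2
  have e4 : ‖∫ z : ℝ, (NS (t - z) : ℂ) * g z‖ ≤ (2 * (B + 1)) * ∫ v, |ll (t - v)| * kp v := by
    rw [← moebL hg t, ← integral_const_mul]
    refine norm_integral_le_of_norm_le (i2.const_mul _) (ae_of_all _ fun v => ?_)
    rw [norm_mul, Complex.norm_real, Real.norm_eq_abs]
    have h5 : ‖Sg g v‖ ≤ 2 * (B + 1) * kp v := by
      refine (hb v).trans ?_
      have h6 := (kp_bounds v).1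
      have h7 := W_pos v
      nlinarith
    calc |ll (t - v)| * ‖Sg g v‖ ≤ |ll (t - v)| * (2 * (B + 1) * kp v) :=
          mul_le_mul_of_nonneg_left h5 (abs_nonneg _)
      _ = _ := by ring
  have e5 := (abs_le.1 e3).1
  have hB1 : 0 < B + 1 := by linarith
  rw [e1] at e4
  have e6 : 1 / (4 * (B + 1)) * ‖∫ z : ℝ, (NS (t - z) : ℂ) * g z‖ ≤
      1 / (4 * (B + 1)) * (2 * (B + 1) * (2 * (∫ v, max (s * ll (t - v)) 0 * kp v) - s * ∫ v, ll (t - v) * kp v)) :=
    mul_le_mul_of_nonneg_left e4 (by positivity)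
  have e7 : 1 / (4 * (B + 1)) * (2 * (B + 1) * (2 * (∫ v, max (s * ll (t - v)) 0 * kp v) - s * ∫ v, ll (t - v) * kp v))
      = (∫ v, max (s * ll (t - v)) 0 * kp v) - (s * ∫ v, ll (t - v) * kp v) / 2 := by
    field_simp
    ring
  rw [e7] at e6
  linarith

end

end Pool.Agent.V1185.Lio
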