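import Pool.Agent.V1185.Lio.B

/-!
# Asymptotics of the twisted averages of the Liouville sum
-/

open Complex MeasureTheory Filter Topology Set

set_option autoImplicit false

namespace Pool.Agent.V1185.Lio

open H313.TK

noncomputable section

/-- transform of the counting function of the squares -/
def ZZ (ρ : ℂ) : ℂ := ∫ u : ℝ, (NS u : ℂ) * cexp (-ρ * u)

theorem NS_hasSum (u : ℝ) : HasSum (fun m : ℕ => (Ici (2 * Real.log ((m : ℝ) + 1))).indicator (fun _ => (1:ℝ)) u) (NS u) := by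
  have hz : ∀ m ∉ Finset.range ⌊Real.exp (u / 2)⌋₊,
      (Ici (2 * Real.log ((m : ℝ) + 1))).indicator (fun _ => (1:ℝ)) u = 0 := by
    intro m hm
    rw [Finset.mem_range, not_lt] at hm
    refine indicator_of_notMem ?_ _
    rw [mem_Ici, not_le]
    have h1 : Real.exp (u / 2) < (m : ℝ) + 1 := by
      have := Nat.lt_floor_add_one (Real.exp (u / 2))
      have h2 : (⌊Real.exp (u / 2)⌋₊ : ℝ) ≤ m := by exact_mod_cast hm
      linarith
    have h3 := (Real.lt_log_iff_exp_lt (by positivity)).2 h1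
    linarith
  have h : HasSum (fun m : ℕ => (Ici (2 * Real.log ((m : ℝ) + 1))).indicator (fun _ => (1:ℝ)) u)
      (∑ m ∈ Finset.range ⌊Real.exp (u / 2)⌋₊, (Ici (2 * Real.log ((m : ℝ) + 1))).indicator (fun _ => (1:ℝ)) u) :=
    hasSum_sum_of_ne_finset_zero hz
  have h1 : ∑ m ∈ Finset.range ⌊Real.exp (u / 2)⌋₊,
      (Ici (2 * Real.log ((m : ℝ) + 1))).indicator (fun _ => (1:ℝ)) u = NS u := by
    rw [NS_eq, Finset.sum_congr rfl (g := fun _ => (1:ℝ)), Finset.sum_const, Finset.card_range, nsmul_eq_mul, mul_one]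
    intro m hm
    rw [Finset.mem_range] at hm
    refine indicator_of_mem ?_ _
    rw [mem_Ici]
    have h1 : (m : ℝ) + 1 ≤ Real.exp (u / 2) := by
      have := Nat.floor_le (Real.exp_pos (u / 2)).le
      have h2 : (m : ℝ) + 1 ≤ (⌊Real.exp (u / 2)⌋₊ : ℝ) := by exact_mod_cast hm
      linarith
    have h3 := (Real.log_le_iff_le_exp (by positivity)).2 h1
    linarith
  rwa [h1] at h

theorem exp_log2 (ρ : ℂ) (m : ℕ) : cexp (-ρ * ((2 * Real.log ((m : ℝ) + 1) : ℝ) : ℂ)) = 1 / ((m : ℂ) + 1) ^ (2 * ρ) := by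
  have h0 : ((m : ℂ) + 1) ≠ 0 := by exact_mod_cast Nat.succ_ne_zero m
  rw [Complex.cpow_def_of_ne_zero h0, one_div, ← Complex.exp_neg]
  congr 1
  have h1 : Complex.log ((m : ℂ) + 1) = ((Real.log ((m : ℝ) + 1) : ℝ) : ℂ) := by
    rw [Complex.ofReal_log (by positivity)]
    push_cast
    rfl
  rw [h1]
  push_cast
  ring

theorem ZZ_eq (ρ : ℂ) (h : 1 / 2 < ρ.re) : ZZ ρ = riemannZeta (2 * ρ) / ρ := by
  have hρ : ρ ≠ 0 := by rintro rfl; simp at h; linarith
  have hβ : 0 < ρ.re := by linarith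
  set F : ℕ → ℝ → ℂ := fun m => (Ici (2 * Real.log ((m : ℝ) + 1))).indicator (fun u : ℝ => cexp (-ρ * u)) with hF
  have hio : ∀ c : ℝ, IntegrableOn (fun u : ℝ => cexp (-ρ * u)) (Ici c) := by
    intro c
    rw [integrableOn_Ici_iff_integrableOn_Ioi]
    exact integrableOn_exp_mul_complex_Ioi (by simpa using hβ) c
  have hFi : ∀ m, Integrable (F m) := fun m => (integrable_indicator_iff measurableSet_Ici).2 (hio _)
  have hFI : ∀ m, ∫ u, F m u = 1 / ((m : ℂ) + 1) ^ (2 * ρ) / ρ := by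
    intro m
    rw [integral_indicator measurableSet_Ici, integral_Ici_eq_integral_Ioi,
      integral_exp_mul_complex_Ioi (by simpa using hβ), exp_log2, neg_div_neg_eq]
  have hFN : ∀ m, ∫ u, ‖F m u‖ = (1 / ((m : ℝ) + 1) ^ (2 * ρ.re)) / ρ.re := by
    intro m
    have h1 : ∀ u, ‖F m u‖ = (Ici (2 * Real.log ((m : ℝ) + 1))).indicator (fun u : ℝ => Real.exp (-ρ.re * u)) u := by
      intro u
      simp only [hF]
      rw [norm_indicator_eq_indicator_norm]
      congr 1
      funext u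
      exact norm_tw ρ u
    simp_rw [h1]
    rw [integral_indicator measurableSet_Ici, integral_Ici_eq_integral_Ioi,
      integral_exp_mul_Ioi (by linarith)]
    rw [neg_div_neg_eq]
    congr 1
    rw [Real.rpow_def_of_pos (by positivity), one_div, ← Real.exp_neg]
    congr 1
    ring
  have hFs : Summable fun m => ∫ u, ‖F m u‖ := by
    simp_rw [hFN]
    refine Summable.div_const ?_ _
    have h1 := (Real.summable_one_div_nat_rpow (p := 2 * ρ.re)).2 (by linarith)
    have h2 := (summable_nat_add_iff 1).2 h1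
    refine h2.congr fun m => ?_
    push_cast
    rfl
  have key := hasSum_integral_of_summable_integral_norm hFi hFs
  have e1 : ∫ u, ∑' m, F m u = ZZ ρ := by
    unfold ZZ
    refine integral_congr_ae (ae_of_all _ fun u => ?_)
    simp only [hF]
    have h1 := NS_hasSum u
    have h2 : ∀ m : ℕ, (Ici (2 * Real.log ((m : ℝ) + 1))).indicator (fun u : ℝ => cexp (-ρ * u)) u =
        (((Ici (2 * Real.log ((m : ℝ) + 1))).indicator (fun _ => (1:ℝ)) u : ℝ) : ℂ) * cexp (-ρ * u) := by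
      intro m
      by_cases hm : u ∈ Ici (2 * Real.log ((m : ℝ) + 1))
      · rw [indicator_of_mem hm, indicator_of_mem hm]; simp
      · rw [indicator_of_notMem hm, indicator_of_notMem hm]; simp
    simp_rw [h2]
    rw [tsum_mul_right, ← Complex.ofReal_tsum, h1.tsum_eq]
  rw [e1] at key
  simp_rw [hFI] at key
  rw [← key.tsum_eq, tsum_div_const, ← zeta_eq_tsum_one_div_nat_add_one_cpow (by simp; linarith)]

theorem ZZ_ne (ρ : ℂ) (h : 1 / 2 < ρ.re) : ZZ ρ ≠ 0 := by
  rw [ZZ_eq ρ h]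
  have hρ : ρ ≠ 0 := by rintro rfl; simp at h; linarith
  exact div_ne_zero (riemannZeta_ne_zero_of_one_le_re (by simp; linarith)) hρ

/-- the twisted primitive is bounded -/
theorem tw_bd (ρ : ℂ) (h0 : 0 < ρ.re) (h1 : ρ.re < 1) : ∃ B : ℝ, 0 ≤ B ∧ ∀ z : ℝ, ‖cexp (-ρ * z) * Ist ρ qc z‖ ≤ B := by
  have hint : Integrable (fun y : ℝ => cexp (-ρ * y) * qc y) := by
    refine ((int_exp_abs 1 one_pos).const_mul 48).mono' ?_ (ae_of_all _ fun y => ?_)
    · have := qq_cont
      unfold qc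
      exact (by fun_prop : Continuous fun y : ℝ => cexp (-ρ * y) * (qq y : ℂ)).aestronglyMeasurable
    · rw [norm_mul, norm_tw]
      calc Real.exp (-ρ.re * y) * ‖qc y‖ ≤ Real.exp |y| * (48 * Real.exp (-(2 * |y|))) := by
            refine mul_le_mul (Real.exp_le_exp.2 ?_) (qq_bd y) (norm_nonneg _) (Real.exp_pos _).le
            have h3 := neg_abs_le y
            have h4 := abs_nonneg y
            nlinarith
        _ = 48 * (Real.exp |y| * Real.exp (-(2 * |y|))) := by ring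
        _ = 48 * Real.exp (-(1 * |y|)) := by rw [← Real.exp_add]; congr 2; ring
  refine ⟨∫ y : ℝ, ‖cexp (-ρ * y) * qc y‖, integral_nonneg fun _ => norm_nonneg _, fun z => ?_⟩
  have h2 : cexp (-ρ * z) * Ist ρ qc z = ∫ y in Iic z, cexp (-ρ * y) * qc y := by
    unfold Ist
    rw [← mul_assoc, ← Complex.exp_add, show -ρ * (z : ℂ) + ρ * z = 0 by ring, Complex.exp_zero, one_mul]
  rw [h2]
  refine (norm_integral_le_integral_norm _).trans ?_
  exact setIntegral_le_integral hint.norm (ae_of_all _ fun _ => norm_nonneg _)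

theorem limL (ρ : ℂ) (h0 : 1 / 2 < ρ.re) (h1 : ρ.re < 1) :
    Tendsto (fun t : ℝ => cexp (-ρ * t) * ∫ z : ℝ, (NS (t - z) : ℂ) * Ist ρ qc z) atTop (𝓝 (ZZ ρ * qh ρ)) := by
  have h00 : 0 < ρ.re := by linarith
  obtain ⟨B, hB, hbd⟩ := tw_bd ρ h00 h1
  have hQ := Ist_QQ qc_QQ ρ (by linarith)
  have hc := hQ.cont
  have hN := NS_meas
  have e : ∀ t : ℝ, cexp (-ρ * t) * ∫ z : ℝ, (NS (t - z) : ℂ) * Ist ρ qc z =
      ∫ u : ℝ, (NS u : ℂ) * cexp (-ρ * u) * (cexp (-ρ * (t - u : ℝ)) * Ist ρ qc (t - u)) := by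
    intro t
    rw [← integral_const_mul, ← integral_sub_left_eq_self (fun z => cexp (-ρ * t) * ((NS (t - z) : ℂ) * Ist ρ qc z)) volume t]
    refine integral_congr_ae (ae_of_all _ fun u => ?_)
    simp only
    rw [show t - (t - u) = u by ring]
    have : cexp (-ρ * t) = cexp (-ρ * u) * cexp (-ρ * (t - u : ℝ)) := by
      rw [← Complex.exp_add]; congr 1; push_cast; ring
    rw [this]
    ring
  simp_rw [e]
  unfold ZZ
  rw [← integral_mul_const]
  refine tendsto_integral_filter_of_dominated_convergence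
    ((Ici (0:ℝ)).indicator fun u => Real.exp (-(ρ.re - 1 / 2) * u) * B) ?_ ?_ ?_ ?_
  · refine Eventually.of_forall fun t => ?_
    have hm : Measurable (Ist ρ qc) := hc.measurable
    exact (by fun_prop : Measurable fun u : ℝ => (NS u : ℂ) * cexp (-ρ * u) * (cexp (-ρ * (t - u : ℝ)) * Ist ρ qc (t - u))).aestronglyMeasurable
  · refine Eventually.of_forall fun t => ae_of_all _ fun u => ?_
    by_cases hu : u ∈ Ici (0:ℝ)
    · rw [indicator_of_mem hu, norm_mul, norm_mul, Complex.norm_real, Real.norm_eq_abs, abs_of_nonneg (NS_nonneg _), norm_tw]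
      refine mul_le_mul ?_ (hbd _) (norm_nonneg _) (Real.exp_pos _).le
      calc NS u * Real.exp (-ρ.re * u) ≤ Real.exp (u / 2) * Real.exp (-ρ.re * u) :=
            mul_le_mul_of_nonneg_right (NS_le u) (Real.exp_pos _).le
        _ = _ := by rw [← Real.exp_add]; congr 1; ring
    · rw [indicator_of_notMem hu, NS_neg (not_le.1 hu)]
      simp
  · rw [integrable_indicator_iff measurableSet_Ici, integrableOn_Ici_iff_integrableOn_Ioi]
    exact (integrableOn_exp_mul_Ioi (by linarith) 0).mul_const B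
  · refine ae_of_all _ fun u => ?_
    refine Tendsto.const_mul _ ?_
    have h3 : Tendsto (fun t : ℝ => 24 * Real.exp (-((ρ.re + 2) * (t - u)))) atTop (𝓝 0) := by
      have h4 : Tendsto (fun t : ℝ => (ρ.re + 2) * (t - u)) atTop atTop :=
        Tendsto.const_mul_atTop (by linarith) (tendsto_atTop_add_const_right _ (-u) tendsto_id)
      have h5 := (Real.tendsto_exp_neg_atTop_nhds_zero.comp h4).const_mul 24
      rw [mul_zero] at h5
      exact h5
    rw [tendsto_iff_norm_sub_tendsto_zero]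
    refine squeeze_zero' (Eventually.of_forall fun _ => norm_nonneg _) ?_ h3
    filter_upwards [eventually_ge_atTop u] with t ht
    exact q1_asy ρ h00 h1 (t - u) (by linarith)

/-- **Core inequality for zeros to the right of the critical line.** -/
theorem coreL (ρ : ℂ) (hz : riemannZeta ρ = 0) (h0 : 1 / 2 < ρ.re) (h1 : ρ.re < 1) :
    ∃ c : ℝ, 0 < c ∧ ∀ᶠ t : ℝ in atTop, ∀ s : ℝ, s = 1 ∨ s = -1 →
      c * Real.exp (ρ.re * t) ≤ ∫ v : ℝ, max (s * ll (t - v)) 0 * kp v := by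
  have h00 : 0 < ρ.re := by linarith
  have hQ := Ist_QQ qc_QQ ρ (by linarith)
  have hS : Sg (Ist ρ qc) = Ist ρ kc := by
    funext v
    rw [kc_eq]
    exact (Sg_Ist qc_QQ ρ (by linarith) v).symm
  have hre : |ρ.re| ≤ 2 := by rw [abs_of_pos h00]; linarith
  have hD : DK (Sg (Ist ρ qc)) := by
    rw [hS]
    exact Ist_DK kc_DK ρ hre (Kh_zero ρ hz h00 h1)
  obtain ⟨c, hc, C, hcore⟩ := parts_ofL _ hQ hD
  have hlim := (limL ρ h0 h1).norm
  set A : ℝ := ‖ZZ ρ * qh ρ‖ with hA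
  have hA0 : 0 < A := norm_pos_iff.2 (mul_ne_zero (ZZ_ne ρ h0) (qh_ne ρ h00 h1))
  have hev : ∀ᶠ t : ℝ in atTop, A / 2 < ‖cexp (-ρ * t) * ∫ z : ℝ, (NS (t - z) : ℂ) * Ist ρ qc z‖ :=
    hlim.eventually (lt_mem_nhds (by linarith))
  have hsm : Tendsto (fun t : ℝ => |C| * Real.exp (-((ρ.re - 1 / 2) * t))) atTop (𝓝 0) := by
    have h4 : Tendsto (fun t : ℝ => (ρ.re - 1 / 2) * t) atTop atTop :=
      Tendsto.const_mul_atTop (by linarith) tendsto_id
    have h5 := (Real.tendsto_exp_neg_atTop_nhds_zero.comp h4).const_mul |C|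
    rw [mul_zero] at h5
    exact h5
  refine ⟨c * A / 4, by positivity, ?_⟩
  filter_upwards [hev, hsm.eventually (gt_mem_nhds (show 0 < c * A / 4 by positivity))] with t ht1 ht2 s hs
  have k1 := hcore t s hs
  rw [norm_mul, norm_tw] at ht1
  have hE : 0 < Real.exp (ρ.re * t) := Real.exp_pos _
  have k2 : A / 2 * Real.exp (ρ.re * t) ≤ ‖∫ z : ℝ, (NS (t - z) : ℂ) * Ist ρ qc z‖ := by
    have k3 := mul_le_mul_of_nonneg_right ht1.le hE.le
    have k4 : Real.exp (-ρ.re * t) * ‖∫ z : ℝ, (NS (t - z) : ℂ) * Ist ρ qc z‖ * Real.exp (ρ.re * t) =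
        ‖∫ z : ℝ, (NS (t - z) : ℂ) * Ist ρ qc z‖ := by
      have k5 : Real.exp (-ρ.re * t) * Real.exp (ρ.re * t) = 1 := by
        rw [← Real.exp_add, show -ρ.re * t + ρ.re * t = 0 by ring, Real.exp_zero]
      calc _ = (Real.exp (-ρ.re * t) * Real.exp (ρ.re * t)) * ‖∫ z : ℝ, (NS (t - z) : ℂ) * Ist ρ qc z‖ := by ring
        _ = _ := by rw [k5, one_mul]
    rw [k4] at k3
    exact k3
  have k6 : C * Real.exp (t / 2) ≤ c * A / 4 * Real.exp (ρ.re * t) := by
    have k7 : Real.exp (t / 2) = Real.exp (-((ρ.re - 1 / 2) * t)) * Real.exp (ρ.re * t) := by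
      rw [← Real.exp_add]; congr 1; ring
    calc C * Real.exp (t / 2) ≤ |C| * Real.exp (t / 2) := mul_le_mul_of_nonneg_right (le_abs_self _) (Real.exp_pos _).le
      _ = (|C| * Real.exp (-((ρ.re - 1 / 2) * t))) * Real.exp (ρ.re * t) := by rw [k7]; ring
      _ ≤ _ := mul_le_mul_of_nonneg_right ht2.le hE.le
  have k8 := mul_le_mul_of_nonneg_left k2 hc.le
  nlinarith

end

end Pool.Agent.V1185.Lio
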