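import Pool.Agent.V1185.Lio.C
import Pool.Agent.V1185.Lio.D

/-!
# The average of the Liouville sum is negative of order `e^{t/2}`
-/

open Complex MeasureTheory Filter Topology Set

set_option autoImplicit false

namespace Pool.Agent.V1185.Lio

open H313.TK

noncomputable section

/-- the constant -/
def q0 : ℝ := ∫ z : ℝ, Real.exp (-(z / 2)) * qq z

theorem q0_eq : ((q0 : ℝ) : ℂ) = qh (1 / 2) := by
  unfold q0 qh
  rw [← integral_complex_ofReal]
  refine integral_congr_ae (ae_of_all _ fun z => ?_)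
  simp only
  push_cast
  congr 2
  ring

theorem q0_neg : q0 < 0 := by
  have hp := Real.pi_pos
  have h := qh_formula (1 / 2) (by norm_num)
  rw [← q0_eq] at h
  have hG : Complex.Gamma (1 / 2 / 2) = ((Real.Gamma (1 / 4) : ℝ) : ℂ) := by
    rw [← Complex.Gamma_ofReal]
    congr 1
    push_cast
    norm_num
  have hpow : ∀ x : ℝ, 0 < x → ((x : ℝ) : ℂ) ^ (-((1:ℂ) / 2 / 2)) = ((x ^ (-(1 / 4) : ℝ) : ℝ) : ℂ) := by
    intro x hx
    rw [Complex.ofReal_cpow hx.le]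
    congr 1
    push_cast
    norm_num
  rw [hG, hpow _ (by positivity), hpow _ (by positivity), hpow _ (by positivity)] at h
  have h2 : q0 = 1 / 2 * Real.Gamma (1 / 4) * ((Real.pi / 4) ^ (-(1 / 4) : ℝ) - 3 * Real.pi ^ (-(1 / 4) : ℝ) +
      2 * (4 * Real.pi) ^ (-(1 / 4) : ℝ)) := by
    have h3 : ((q0 : ℝ) : ℂ) = ((1 / 2 * Real.Gamma (1 / 4) * ((Real.pi / 4) ^ (-(1 / 4) : ℝ) - 3 * Real.pi ^ (-(1 / 4) : ℝ) +
      2 * (4 * Real.pi) ^ (-(1 / 4) : ℝ)) : ℝ) : ℂ) := by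
      rw [h]
      push_cast
      ring
    exact_mod_cast h3
  have hs : (4:ℝ) ^ (1 / 4 : ℝ) = Real.sqrt 2 := by
    rw [Real.sqrt_eq_rpow, show (4:ℝ) = 2 ^ (2:ℝ) by norm_num, ← Real.rpow_mul (by norm_num)]
    norm_num
  have e1 : (Real.pi / 4) ^ (-(1 / 4) : ℝ) = Real.pi ^ (-(1 / 4) : ℝ) * Real.sqrt 2 := by
    rw [Real.div_rpow hp.le (by norm_num), Real.rpow_neg (by norm_num : (0:ℝ) ≤ 4), hs]
    rw [div_inv_eq_mul]
  have e2 : (4 * Real.pi) ^ (-(1 / 4) : ℝ) = Real.pi ^ (-(1 / 4) : ℝ) * (Real.sqrt 2 / 2) := by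
    rw [Real.mul_rpow (by norm_num) hp.le, Real.rpow_neg (by norm_num : (0:ℝ) ≤ 4), hs]
    have h4 : (Real.sqrt 2)⁻¹ = Real.sqrt 2 / 2 := by
      have h5 : Real.sqrt 2 * Real.sqrt 2 = 2 := Real.mul_self_sqrt (by norm_num)
      have h6 : Real.sqrt 2 ≠ 0 := by positivity
      field_simp
      linarith
    rw [h4]
    ring
  rw [h2, e1, e2]
  have h5 : Real.sqrt 2 < 1.5 := by
    rw [Real.sqrt_lt' (by norm_num)]
    norm_num
  have h6 : 0 < Real.pi ^ (-(1 / 4) : ℝ) := Real.rpow_pos_of_pos hp _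
  have h7 : 0 < Real.Gamma (1 / 4) := Real.Gamma_pos_of_pos (by norm_num)
  have h8 : Real.pi ^ (-(1 / 4) : ℝ) * Real.sqrt 2 - 3 * Real.pi ^ (-(1 / 4) : ℝ) +
      2 * (Real.pi ^ (-(1 / 4) : ℝ) * (Real.sqrt 2 / 2)) = Real.pi ^ (-(1 / 4) : ℝ) * (2 * Real.sqrt 2 - 3) := by ring
  rw [h8]
  have h9 : Real.pi ^ (-(1 / 4) : ℝ) * (2 * Real.sqrt 2 - 3) < 0 := mul_neg_of_pos_of_neg h6 (by linarith)
  exact mul_neg_of_pos_of_neg (by positivity) h9

theorem avg_real (t : ℝ) : ∫ v : ℝ, ll (t - v) * kp v = ∫ z : ℝ, NS (t - z) * qq z := by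
  have h1 := moebL qc_QQ t
  rw [← kc_eq] at h1
  have h2 : ∫ v : ℝ, (ll (t - v) : ℂ) * kc v = ((∫ v : ℝ, ll (t - v) * kp v : ℝ) : ℂ) := by
    rw [← integral_complex_ofReal]
    refine integral_congr_ae (ae_of_all _ fun v => ?_)
    simp [kc]
  have h3 : ∫ z : ℝ, (NS (t - z) : ℂ) * qc z = ((∫ z : ℝ, NS (t - z) * qq z : ℝ) : ℂ) := by
    rw [← integral_complex_ofReal]
    refine integral_congr_ae (ae_of_all _ fun v => ?_)
    simp [qc]
  rw [h2, h3] at h1
  exact_mod_cast h1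

theorem NS_lim : Tendsto (fun w : ℝ => Real.exp (-(w / 2)) * NS w) atTop (𝓝 1) := by
  have h4 : Tendsto (fun w : ℝ => w / 2) atTop atTop := tendsto_id.atTop_div_const (by norm_num)
  have h5 : Tendsto (fun w : ℝ => 1 - Real.exp (-(w / 2))) atTop (𝓝 1) := by
    have := (Real.tendsto_exp_neg_atTop_nhds_zero.comp h4).const_sub 1
    rw [sub_zero] at this
    exact this
  refine tendsto_of_tendsto_of_tendsto_of_le_of_le h5 tendsto_const_nhds (fun w => ?_) (fun w => ?_)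
  · have h1 := mul_le_mul_of_nonneg_left (NS_ge w) (Real.exp_pos (-(w / 2))).le
    rw [mul_sub, ← Real.exp_add, show -(w / 2) + w / 2 = 0 by ring, Real.exp_zero, mul_one] at h1
    exact h1
  · have h1 := mul_le_mul_of_nonneg_left (NS_le w) (Real.exp_pos (-(w / 2))).le
    rw [← Real.exp_add, show -(w / 2) + w / 2 = 0 by ring, Real.exp_zero] at h1
    exact h1

theorem avg_lim : Tendsto (fun t : ℝ => Real.exp (-(t / 2)) * ∫ v : ℝ, ll (t - v) * kp v) atTop (𝓝 q0) := by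
  simp_rw [avg_real, ← integral_const_mul]
  unfold q0
  have hN := NS_meas
  have hq := qq_cont
  refine tendsto_integral_filter_of_dominated_convergence (fun z => 48 * Real.exp (-(1 * |z|))) ?_ ?_ ?_ ?_
  · refine Eventually.of_forall fun t => ?_
    exact (by fun_prop : Measurable fun z : ℝ => Real.exp (-(t / 2)) * (NS (t - z) * qq z)).aestronglyMeasurable
  · refine Eventually.of_forall fun t => ae_of_all _ fun z => ?_
    rw [norm_mul, norm_mul, Real.norm_eq_abs, Real.norm_eq_abs, Real.norm_eq_abs, abs_of_pos (Real.exp_pos _),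
      abs_of_nonneg (NS_nonneg _)]
    calc Real.exp (-(t / 2)) * (NS (t - z) * |qq z|) ≤
          Real.exp (-(t / 2)) * (Real.exp ((t - z) / 2) * (48 * Real.exp (-(2 * |z|)))) :=
          mul_le_mul_of_nonneg_left (mul_le_mul (NS_le _) (qq_abs z) (abs_nonneg _) (Real.exp_pos _).le) (Real.exp_pos _).le
      _ = 48 * (Real.exp (-(t / 2)) * (Real.exp ((t - z) / 2) * Real.exp (-(2 * |z|)))) := by ring
      _ ≤ 48 * (Real.exp (-(t / 2)) * (Real.exp (t / 2) * Real.exp (-(1 * |z|)))) :=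
          mul_le_mul_of_nonneg_left (mul_le_mul_of_nonneg_left (expb t z) (Real.exp_pos _).le) (by norm_num)
      _ = 48 * Real.exp (-(1 * |z|)) := by
          rw [← mul_assoc (Real.exp (-(t / 2))), ← Real.exp_add, show -(t / 2) + t / 2 = 0 by ring, Real.exp_zero, one_mul]
  · exact (int_exp_abs 1 one_pos).const_mul 48
  · refine ae_of_all _ fun z => ?_
    have h1 : Tendsto (fun t : ℝ => t - z) atTop atTop := tendsto_atTop_add_const_right _ (-z) tendsto_id
    have h2 := (NS_lim.comp h1).const_mul (Real.exp (-(z / 2)) * qq z)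
    rw [mul_one] at h2
    refine h2.congr fun t => ?_
    simp only [Function.comp_apply]
    have h3 : Real.exp (-(t / 2)) = Real.exp (-(z / 2)) * Real.exp (-((t - z) / 2)) := by
      rw [← Real.exp_add]; congr 1; ring
    rw [h3]
    ring

/-- **The negative part is always of order `e^{t/2}`.** -/
theorem negL : ∃ c : ℝ, 0 < c ∧ ∀ᶠ t : ℝ in atTop, c * Real.exp (1 / 2 * t) ≤ ∫ v : ℝ, max (-ll (t - v)) 0 * kp v := by
  have hm := ll_meas
  have hq := q0_neg
  refine ⟨-q0 / 2, by linarith, ?_⟩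
  filter_upwards [avg_lim.eventually (gt_mem_nhds (show q0 < q0 / 2 by linarith))] with t ht
  have i1 := avg_int ll ll_meas abs_ll_le t
  have i3 : Integrable (fun v => max (-ll (t - v)) 0 * kp v) :=
    avg_int (fun u => max (-ll u) 0) (by fun_prop) (fun u => by
      rw [abs_of_nonneg (le_max_right _ _)]
      exact max_le ((neg_le_abs _).trans (abs_ll_le u)) (Real.exp_pos _).le) t
  have h1 : -∫ v : ℝ, ll (t - v) * kp v ≤ ∫ v : ℝ, max (-ll (t - v)) 0 * kp v := by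
    rw [← integral_neg]
    refine integral_mono i1.neg i3 fun v => ?_
    have h2 := mul_le_mul_of_nonneg_right (le_max_left (-ll (t - v)) 0) (kp_nonneg v)
    show -(ll (t - v) * kp v) ≤ _
    linarith
  refine le_trans ?_ h1
  have h3 : Real.exp (-(t / 2)) * Real.exp (1 / 2 * t) = 1 := by
    rw [← Real.exp_add, show -(t / 2) + 1 / 2 * t = 0 by ring, Real.exp_zero]
  have h4 := mul_le_mul_of_nonneg_right ht.le (Real.exp_pos (1 / 2 * t)).le
  have h5 : Real.exp (-(t / 2)) * (∫ v : ℝ, ll (t - v) * kp v) * Real.exp (1 / 2 * t) = ∫ v : ℝ, ll (t - v) * kp v := by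
    calc _ = (Real.exp (-(t / 2)) * Real.exp (1 / 2 * t)) * ∫ v : ℝ, ll (t - v) * kp v := by ring
      _ = _ := by rw [h3, one_mul]
  rw [h5] at h4
  linarith

/-- In every window `[x, x log x]` the Liouville sum is at most `-c √y` somewhere. -/
theorem negW : ∃ c : ℝ, 0 < c ∧ ∀ᶠ x : ℝ in atTop, ∃ y ∈ Icc x (x * Real.log x), c * y ^ (1 / 2 : ℝ) ≤ -LL y :=
  win1_log (fun y => -LL y) ll_meas.neg (fun u => by
    show |-ll u| ≤ _
    rw [abs_neg]; exact abs_ll_le u) (1 / 2) le_rfl (by norm_num) negL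

/-- Both signs reach `c y^β` in every window `[x, x log x]` for a zero with `β > 1/2`. -/
theorem bothW (ρ : ℂ) (hz : riemannZeta ρ = 0) (h0 : 1 / 2 < ρ.re) (h1 : ρ.re < 1) :
    ∃ c : ℝ, 0 < c ∧ ∀ᶠ x : ℝ in atTop, ∀ s : ℝ, s = 1 ∨ s = -1 →
      ∃ y ∈ Icc x (x * Real.log x), c * y ^ ρ.re ≤ s * LL y := by
  obtain ⟨c, hc, hcore⟩ := coreL ρ hz h0 h1
  have key : ∀ s : ℝ, s = 1 ∨ s = -1 → ∃ c : ℝ, 0 < c ∧ ∀ᶠ x : ℝ in atTop,
      ∃ y ∈ Icc x (x * Real.log x), c * y ^ ρ.re ≤ s * LL y := by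
    intro s hs
    refine win1_log (fun y => s * LL y) (ll_meas.const_mul s) (fun u => ?_) ρ.re h0.le h1.le
      ⟨c, hc, hcore.mono fun t ht => ht s hs⟩
    show |s * ll u| ≤ _
    rw [abs_mul]
    have : |s| = 1 := by rcases hs with h | h <;> rw [h] <;> simp
    rw [this, one_mul]
    exact abs_ll_le u
  obtain ⟨c1, hc1, k1⟩ := key 1 (Or.inl rfl)
  obtain ⟨c2, hc2, k2⟩ := key (-1) (Or.inr rfl)
  refine ⟨min c1 c2, lt_min hc1 hc2, ?_⟩
  filter_upwards [k1, k2, eventually_gt_atTop (0:ℝ)] with x h3 h4 hx s hs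
  rcases hs with rfl | rfl
  · obtain ⟨y, hy, hy2⟩ := h3
    refine ⟨y, hy, le_trans (mul_le_mul_of_nonneg_right (min_le_left _ _) ?_) hy2⟩
    exact Real.rpow_nonneg (hx.le.trans hy.1) _
  · obtain ⟨y, hy, hy2⟩ := h4
    refine ⟨y, hy, le_trans (mul_le_mul_of_nonneg_right (min_le_right _ _) ?_) hy2⟩
    exact Real.rpow_nonneg (hx.le.trans hy.1) _

end

end Pool.Agent.V1185.Lio
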