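import Pool.Agent.V1185.Lio.E

/-!
# Multiple zeros on the critical line
-/

open Complex MeasureTheory Filter Topology Set

set_option autoImplicit false

namespace Pool.Agent.V1185.Lio

open H313.TK

noncomputable section

theorem exp_deriv (b : ℂ) (z : ℝ) : HasDerivAt (fun z : ℝ => cexp (b * z)) (b * cexp (b * z)) z := by
  have h1 : HasDerivAt (fun z : ℝ => b * (z : ℂ)) (b * 1) z := ((hasDerivAt_id z).ofReal_comp).const_mul b
  refine (h1.cexp).congr_deriv ?_
  ring

/-- resolvent identity -/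
theorem resolvent {g : ℝ → ℂ} (hg : QQ g) (a b : ℂ) (ha : a.re < 2) (hb : b.re < 2) (t : ℝ) :
    Ist b g t = Ist a g t + (b - a) * Ist a (Ist b g) t := by
  have hQ := Ist_QQ hg b hb
  have hcg := hg.cont
  have hcI := hQ.cont
  have hd : ∀ z : ℝ, HasDerivAt (Ist b g) (b * Ist b g z + g z) z := by
    intro z
    have h1 := prim_cont (by fun_prop : Continuous fun z : ℝ => cexp (-b * z) * g z) (hg.int b hb) z
    have h3 := (exp_deriv b z).mul h1
    refine h3.congr_deriv ?_
    have h4 : cexp (b * z) * (cexp (-b * z) * g z) = g z := tw_cancel b z (g z)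
    rw [h4]
    unfold Ist
    ring
  have hd2 : ∀ z : ℝ, HasDerivAt (fun z : ℝ => cexp (-a * z) * Ist b g z)
      (cexp (-a * z) * g z + (b - a) * (cexp (-a * z) * Ist b g z)) z := by
    intro z
    refine ((exp_deriv (-a) z).mul (hd z)).congr_deriv ?_
    ring
  have hi : IntegrableOn (fun z : ℝ => cexp (-a * z) * g z + (b - a) * (cexp (-a * z) * Ist b g z)) (Iic t) :=
    (hg.int a ha t).add ((hQ.int a ha t).const_mul _)
  have hlim : Tendsto (fun z : ℝ => cexp (-a * z) * Ist b g z) atBot (𝓝 0) := by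
    obtain ⟨C, hC, hbd⟩ := hQ.bd 0
    rw [tendsto_zero_iff_norm_tendsto_zero]
    have h5 : Tendsto (fun z : ℝ => C * Real.exp ((2 - a.re) * z)) atBot (𝓝 0) := by
      have h6 : Tendsto (fun z : ℝ => (2 - a.re) * z) atBot atBot := Tendsto.const_mul_atBot (by linarith) tendsto_id
      have h7 := (Real.tendsto_exp_atBot.comp h6).const_mul C
      rw [mul_zero] at h7
      exact h7
    refine squeeze_zero' (Eventually.of_forall fun _ => norm_nonneg _) ?_ h5
    filter_upwards [eventually_le_atBot (0:ℝ)] with z hz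
    rw [norm_mul, norm_tw]
    calc Real.exp (-a.re * z) * ‖Ist b g z‖ ≤ Real.exp (-a.re * z) * (C * Real.exp (2 * z)) :=
          mul_le_mul_of_nonneg_left (hbd z hz) (Real.exp_pos _).le
      _ = C * (Real.exp (-a.re * z) * Real.exp (2 * z)) := by ring
      _ = _ := by rw [← Real.exp_add]; congr 2; ring
  have key := integral_Iic_of_hasDerivAt_of_tendsto' (fun z _ => hd2 z) hi hlim
  rw [sub_zero, integral_add (hg.int a ha t) ((hQ.int a ha t).const_mul _), integral_const_mul] at key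
  have h8 : Ist b g t = cexp (a * t) * (cexp (-a * t) * Ist b g t) := (tw_cancel a t _).symm
  rw [h8, ← key]
  show _ = cexp (a * t) * (∫ z in Iic t, cexp (-a * z) * g z) +
    (b - a) * (cexp (a * t) * ∫ z in Iic t, cexp (-a * z) * Ist b g z)
  ring

/-- the defect `e^{u/2} - ⌊e^{u/2}⌋` for `u ≥ 0` -/
def R0 : ℝ → ℝ := (Ici (0:ℝ)).indicator fun u => Real.exp (u / 2) - NS u

/-- the main term -/
def E0 : ℝ → ℝ := (Ici (0:ℝ)).indicator fun u => Real.exp (u / 2)

theorem NS_split (u : ℝ) : NS u = E0 u - R0 u := by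
  unfold E0 R0
  by_cases h : u ∈ Ici (0:ℝ)
  · rw [indicator_of_mem h, indicator_of_mem h]; ring
  · rw [indicator_of_notMem h, indicator_of_notMem h, NS_neg (not_le.1 h)]; ring

theorem R0_meas : Measurable R0 := by
  have := NS_meas
  exact (by fun_prop : Measurable fun u : ℝ => Real.exp (u / 2) - NS u).indicator measurableSet_Ici

theorem E0_meas : Measurable E0 :=
  (by fun_prop : Measurable fun u : ℝ => Real.exp (u / 2)).indicator measurableSet_Ici

theorem R0_abs (u : ℝ) : |R0 u| ≤ 1 := by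
  unfold R0
  by_cases h : u ∈ Ici (0:ℝ)
  · rw [indicator_of_mem h, abs_le]
    have h1 := NS_le u
    have h2 := NS_ge u
    constructor <;> linarith
  · rw [indicator_of_notMem h]; simp

theorem R0_neg {u : ℝ} (h : u < 0) : R0 u = 0 := indicator_of_notMem (by simpa using h) _

theorem R0_bd (s : ℂ) (hs : 1 / 2 ≤ s.re) (u : ℝ) :
    ‖(R0 u : ℂ) * cexp (-s * u)‖ ≤ (Ici (0:ℝ)).indicator (fun u => Real.exp (-(1 / 2) * u)) u := by
  by_cases h : u ∈ Ici (0:ℝ)
  · rw [indicator_of_mem h, norm_mul, norm_tw, Complex.norm_real, Real.norm_eq_abs]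
    have h0 : (0:ℝ) ≤ u := h
    calc |R0 u| * Real.exp (-s.re * u) ≤ 1 * Real.exp (-(1 / 2) * u) :=
          mul_le_mul (R0_abs u) (Real.exp_le_exp.2 (by nlinarith)) (Real.exp_pos _).le zero_le_one
      _ = _ := one_mul _
  · rw [indicator_of_notMem h, R0_neg (not_le.1 h)]; simp

theorem bd_int : Integrable ((Ici (0:ℝ)).indicator (fun u => Real.exp (-(1 / 2) * u))) := by
  rw [integrable_indicator_iff measurableSet_Ici, integrableOn_Ici_iff_integrableOn_Ioi]
  exact integrableOn_exp_mul_Ioi (by norm_num) 0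

/-- transform of the defect -/
def RZ (s : ℂ) : ℂ := ∫ u : ℝ, (R0 u : ℂ) * cexp (-s * u)

theorem R0_int (s : ℂ) (hs : 1 / 2 ≤ s.re) : Integrable (fun u : ℝ => (R0 u : ℂ) * cexp (-s * u)) := by
  have := R0_meas
  exact bd_int.mono' (by fun_prop : Measurable fun u : ℝ => (R0 u : ℂ) * cexp (-s * u)).aestronglyMeasurable
    (ae_of_all _ (R0_bd s hs))

theorem ZZ_split (s : ℂ) (hs : 1 / 2 < s.re) : ZZ s = 1 / (s - 1 / 2) - RZ s := by
  have h1 : ∀ u : ℝ, (E0 u : ℂ) * cexp (-s * u) = (Ici (0:ℝ)).indicator (fun u : ℝ => cexp ((1 / 2 - s) * u)) u := by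
    intro u
    unfold E0
    by_cases h : u ∈ Ici (0:ℝ)
    · rw [indicator_of_mem h, indicator_of_mem h, Complex.ofReal_exp, ← Complex.exp_add]
      congr 1
      push_cast
      ring
    · rw [indicator_of_notMem h, indicator_of_notMem h]; simp
  have hre : (1 / 2 - s).re < 0 := by simp; linarith
  have h2 : Integrable (fun u : ℝ => (E0 u : ℂ) * cexp (-s * u)) := by
    simp_rw [h1]
    rw [integrable_indicator_iff measurableSet_Ici, integrableOn_Ici_iff_integrableOn_Ioi]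
    exact integrableOn_exp_mul_complex_Ioi hre 0
  have h3 : ∫ u : ℝ, (E0 u : ℂ) * cexp (-s * u) = 1 / (s - 1 / 2) := by
    simp_rw [h1]
    rw [integral_indicator measurableSet_Ici, integral_Ici_eq_integral_Ioi, integral_exp_mul_complex_Ioi hre]
    simp only [Complex.ofReal_zero, mul_zero, Complex.exp_zero]
    rw [show (1:ℂ) / 2 - s = -(s - 1 / 2) by ring, neg_div_neg_eq]
  unfold ZZ RZ
  rw [← h3, ← integral_sub h2 (R0_int s hs.le)]
  refine integral_congr_ae (ae_of_all _ fun u => ?_)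
  simp only
  rw [NS_split u]
  push_cast
  ring

theorem RZ_eq (ρ : ℂ) (h : ρ.re = 1 / 2) (hne : ρ ≠ 1 / 2) : RZ ρ = 1 / (ρ - 1 / 2) - riemannZeta (2 * ρ) / ρ := by
  have hρ : ρ ≠ 0 := by rintro rfl; simp at h
  have hm := R0_meas
  have hd : Tendsto (fun n : ℕ => ρ + ((1 / ((n : ℝ) + 1) : ℝ) : ℂ)) atTop (𝓝 ρ) := by
    have h1 := (Complex.continuous_ofReal.tendsto 0).comp (tendsto_one_div_add_atTop_nhds_zero_nat (𝕜 := ℝ))
    have h2 := h1.const_add ρ
    simpa using h2
  have hre : ∀ n : ℕ, 1 / 2 < (ρ + ((1 / ((n : ℝ) + 1) : ℝ) : ℂ)).re := by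
    intro n
    rw [Complex.add_re, Complex.ofReal_re, h]
    have : (0:ℝ) < 1 / ((n : ℝ) + 1) := by positivity
    linarith
  have hl : Tendsto (fun n : ℕ => RZ (ρ + ((1 / ((n : ℝ) + 1) : ℝ) : ℂ))) atTop (𝓝 (RZ ρ)) := by
    unfold RZ
    refine tendsto_integral_of_dominated_convergence _ (fun n => ?_) bd_int (fun n => ae_of_all _ (R0_bd _ (hre n).le)) ?_
    · exact (by fun_prop : Measurable fun u : ℝ => (R0 u : ℂ) * cexp (-(ρ + ((1 / ((n : ℝ) + 1) : ℝ) : ℂ)) * u)).aestronglyMeasurable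
    · refine ae_of_all _ fun u => ?_
      exact ((by fun_prop : Continuous fun s : ℂ => (R0 u : ℂ) * cexp (-s * u)).tendsto ρ).comp hd
  have hr : Tendsto (fun n : ℕ => 1 / ((ρ + ((1 / ((n : ℝ) + 1) : ℝ) : ℂ)) - 1 / 2) -
      riemannZeta (2 * (ρ + ((1 / ((n : ℝ) + 1) : ℝ) : ℂ))) / (ρ + ((1 / ((n : ℝ) + 1) : ℝ) : ℂ))) atTop
      (𝓝 (1 / (ρ - 1 / 2) - riemannZeta (2 * ρ) / ρ)) := by
    have h2ρ : 2 * ρ ≠ 1 := fun h2 => hne (by rw [← h2]; ring)
    refine Tendsto.sub ?_ ?_
    · exact tendsto_const_nhds.div (hd.sub_const _) (sub_ne_zero.2 hne)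
    · refine Tendsto.div ?_ hd hρ
      exact ((differentiableAt_riemannZeta h2ρ).continuousAt.tendsto).comp (hd.const_mul 2)
  refine tendsto_nhds_unique hl (hr.congr fun n => ?_)
  have h3 := ZZ_split _ (hre n)
  rw [ZZ_eq _ (hre n)] at h3
  rw [h3]
  ring

end

end Pool.Agent.V1185.Lio
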