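import Pool.Agent.V1185.Lio.F

/-!
# Multiple zeros on the critical line: the core inequality
-/

open Complex MeasureTheory Filter Topology Set

set_option autoImplicit false

namespace Pool.Agent.V1185.Lio

open H313.TK

noncomputable section

theorem g2_formula (ρ : ℂ) (h1 : ρ.re < 1) (hne : ρ ≠ 1 / 2) (t : ℝ) :
    Ist (1 / 2) (Ist ρ (Ist ρ qc)) t =
      (Ist ρ (Ist ρ qc) t - (Ist ρ qc t - Ist (1 / 2) qc t) / (ρ - 1 / 2)) / (ρ - 1 / 2) := by
  have hQ := Ist_QQ qc_QQ ρ (by linarith)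
  have hd : ρ - 1 / 2 ≠ 0 := sub_ne_zero.2 hne
  have e1 := resolvent hQ (1 / 2) ρ (by norm_num) (by linarith) t
  have e2 := resolvent qc_QQ (1 / 2) ρ (by norm_num) (by linarith) t
  rw [eq_div_iff hd]
  have e3 : Ist (1 / 2) (Ist ρ qc) t = (Ist ρ qc t - Ist (1 / 2) qc t) / (ρ - 1 / 2) := by
    rw [eq_div_iff hd, e2]
    ring
  rw [← e3, e1]
  ring

/-- growth of the twisted second primitive -/
theorem b2_bd (ρ : ℂ) (h : ρ.re = 1 / 2) : ∃ K : ℝ, 0 ≤ K ∧ ∀ t : ℝ, 1 ≤ t → ∀ z ≤ t,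
    ‖cexp (-ρ * z) * Ist ρ (Ist ρ qc) z‖ ≤ K * t := by
  obtain ⟨C, hC, hb⟩ := q2_asy ρ (by linarith) (by linarith)
  have hQ := Ist_QQ (Ist_QQ qc_QQ ρ (by linarith)) ρ (by linarith)
  obtain ⟨C', hC', hb'⟩ := hQ.bd 0
  refine ⟨‖qh ρ‖ + C + C', by positivity, fun t ht z hz => ?_⟩
  have hq := norm_nonneg (qh ρ)
  rcases le_total 0 z with h0 | h0
  · have h1 := hb z h0
    have h2 : ‖cexp (-ρ * z) * Ist ρ (Ist ρ qc) z‖ ≤ ‖cexp (-ρ * z) * Ist ρ (Ist ρ qc) z - qh ρ * z‖ + ‖qh ρ * z‖ := by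
      refine le_trans (le_of_eq ?_) (norm_add_le _ _)
      congr 1
      ring
    have h3 : ‖qh ρ * z‖ = ‖qh ρ‖ * z := by
      rw [norm_mul, Complex.norm_real, Real.norm_eq_abs, abs_of_nonneg h0]
    rw [h3] at h2
    nlinarith [mul_nonneg hq (sub_nonneg.2 hz), mul_nonneg hC (sub_nonneg.2 ht), mul_nonneg hC' (sub_nonneg.2 ht)]
  · have h1 := hb' z h0
    rw [norm_mul, norm_tw, h]
    have h2 : Real.exp (-(1 / 2) * z) * ‖Ist ρ (Ist ρ qc) z‖ ≤ Real.exp (-(1 / 2) * z) * (C' * Real.exp (2 * z)) :=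
      mul_le_mul_of_nonneg_left h1 (Real.exp_pos _).le
    have h3 : Real.exp (-(1 / 2) * z) * (C' * Real.exp (2 * z)) = C' * Real.exp (3 / 2 * z) := by
      rw [show Real.exp (-(1 / 2) * z) * (C' * Real.exp (2 * z)) = C' * (Real.exp (-(1 / 2) * z) * Real.exp (2 * z)) by ring,
        ← Real.exp_add]
      congr 2
      ring
    have h4 : Real.exp (3 / 2 * z) ≤ 1 := Real.exp_le_one_iff.2 (by linarith)
    rw [h3] at h2
    nlinarith [mul_nonneg hq (by linarith : 0 ≤ t), mul_nonneg hC (by linarith : 0 ≤ t),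
      mul_nonneg hC' (sub_nonneg.2 ht), mul_le_mul_of_nonneg_left h4 hC']

theorem b2_lim (ρ : ℂ) (h : ρ.re = 1 / 2) (u : ℝ) :
    Tendsto (fun t : ℝ => ((t : ℂ))⁻¹ * (cexp (-ρ * (t - u : ℝ)) * Ist ρ (Ist ρ qc) (t - u))) atTop (𝓝 (qh ρ)) := by
  obtain ⟨C, hC, hb⟩ := q2_asy ρ (by linarith) (by linarith)
  have hl : Tendsto (fun t : ℝ => (C + ‖qh ρ‖ * |u|) * t⁻¹) atTop (𝓝 0) := by
    have := (tendsto_inv_atTop_zero (𝕜 := ℝ)).const_mul (C + ‖qh ρ‖ * |u|)
    rwa [mul_zero] at this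
  rw [tendsto_iff_norm_sub_tendsto_zero]
  refine squeeze_zero' (Eventually.of_forall fun _ => norm_nonneg _) ?_ hl
  filter_upwards [eventually_ge_atTop u, eventually_ge_atTop (1:ℝ)] with t ht ht1
  have ht0 : 0 < t := by linarith
  have h1 := hb (t - u) (by linarith)
  have htc : (t : ℂ) ≠ 0 := by exact_mod_cast ht0.ne'
  have e : ((t : ℂ))⁻¹ * (cexp (-ρ * (t - u : ℝ)) * Ist ρ (Ist ρ qc) (t - u)) - qh ρ =
      ((t : ℂ))⁻¹ * ((cexp (-ρ * (t - u : ℝ)) * Ist ρ (Ist ρ qc) (t - u) - qh ρ * (t - u : ℝ)) - qh ρ * u) := by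
    field_simp
    push_cast
    ring
  rw [e, norm_mul, norm_inv, Complex.norm_real, Real.norm_eq_abs, abs_of_pos ht0, mul_comm]
  refine mul_le_mul_of_nonneg_right ?_ (by positivity)
  refine (norm_sub_le _ _).trans (add_le_add h1 ?_)
  rw [norm_mul, Complex.norm_real, Real.norm_eq_abs]

theorem partB (ρ : ℂ) (h : ρ.re = 1 / 2) :
    Tendsto (fun t : ℝ => ((t : ℂ))⁻¹ * (cexp (-ρ * t) * ∫ z : ℝ, (R0 (t - z) : ℂ) * Ist ρ (Ist ρ qc) z)) atTop
      (𝓝 (RZ ρ * qh ρ)) := by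
  obtain ⟨K, hK, hbd⟩ := b2_bd ρ h
  have hQ := Ist_QQ (Ist_QQ qc_QQ ρ (by linarith)) ρ (by linarith)
  have hc := hQ.cont
  have hR := R0_meas
  have e : ∀ t : ℝ, ((t : ℂ))⁻¹ * (cexp (-ρ * t) * ∫ z : ℝ, (R0 (t - z) : ℂ) * Ist ρ (Ist ρ qc) z) =
      ∫ u : ℝ, (R0 u : ℂ) * cexp (-ρ * u) * (((t : ℂ))⁻¹ * (cexp (-ρ * (t - u : ℝ)) * Ist ρ (Ist ρ qc) (t - u))) := by
    intro t
    rw [← integral_const_mul, ← integral_const_mul,
      ← integral_sub_left_eq_self (fun z => ((t : ℂ))⁻¹ * (cexp (-ρ * t) * ((R0 (t - z) : ℂ) * Ist ρ (Ist ρ qc) z))) volume t]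
    refine integral_congr_ae (ae_of_all _ fun u => ?_)
    simp only
    rw [show t - (t - u) = u by ring]
    have : cexp (-ρ * t) = cexp (-ρ * u) * cexp (-ρ * (t - u : ℝ)) := by
      rw [← Complex.exp_add]; congr 1; push_cast; ring
    rw [this]
    ring
  simp_rw [e]
  unfold RZ
  rw [← integral_mul_const]
  refine tendsto_integral_filter_of_dominated_convergence
    (fun u => (Ici (0:ℝ)).indicator (fun u => Real.exp (-(1 / 2) * u)) u * K) ?_ ?_ (bd_int.mul_const K) ?_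
  · refine Eventually.of_forall fun t => ?_
    have hm : Measurable (Ist ρ (Ist ρ qc)) := hc.measurable
    exact (by fun_prop : Measurable fun u : ℝ => (R0 u : ℂ) * cexp (-ρ * u) *
      (((t : ℂ))⁻¹ * (cexp (-ρ * (t - u : ℝ)) * Ist ρ (Ist ρ qc) (t - u)))).aestronglyMeasurable
  · filter_upwards [eventually_ge_atTop (1:ℝ)] with t ht
    have ht0 : 0 < t := by linarith
    refine ae_of_all _ fun u => ?_
    rw [norm_mul]
    by_cases hu : u ∈ Ici (0:ℝ)
    · have hu0 : (0:ℝ) ≤ u := hu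
      refine mul_le_mul (R0_bd ρ h.ge u) ?_ (norm_nonneg _) (indicator_nonneg (fun _ _ => (Real.exp_pos _).le) _)
      rw [norm_mul, norm_inv, Complex.norm_real, Real.norm_eq_abs, abs_of_pos ht0]
      have h1 := hbd t ht (t - u) (by linarith)
      rw [inv_mul_le_iff₀ ht0]
      exact h1.trans (le_of_eq (mul_comm _ _))
    · rw [R0_neg (not_le.1 hu), indicator_of_notMem hu]
      simp
  · refine ae_of_all _ fun u => ?_
    exact (b2_lim ρ h u).const_mul _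

theorem inv_lim_of_bd {f : ℝ → ℂ} {M : ℝ} (hf : ∀ᶠ t in atTop, ‖f t‖ ≤ M) :
    Tendsto (fun t : ℝ => ((t : ℂ))⁻¹ * f t) atTop (𝓝 0) := by
  rw [tendsto_zero_iff_norm_tendsto_zero]
  have hl : Tendsto (fun t : ℝ => M * t⁻¹) atTop (𝓝 0) := by
    have := (tendsto_inv_atTop_zero (𝕜 := ℝ)).const_mul M
    rwa [mul_zero] at this
  refine squeeze_zero' (Eventually.of_forall fun _ => norm_nonneg _) ?_ hl
  filter_upwards [hf, eventually_gt_atTop (0:ℝ)] with t ht ht0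
  rw [norm_mul, norm_inv, Complex.norm_real, Real.norm_eq_abs, abs_of_pos ht0, mul_comm]
  exact mul_le_mul_of_nonneg_right ht (by positivity)

theorem partA (ρ : ℂ) (h : ρ.re = 1 / 2) (hne : ρ ≠ 1 / 2) :
    Tendsto (fun t : ℝ => ((t : ℂ))⁻¹ * (cexp (-ρ * t) * ∫ z : ℝ, (E0 (t - z) : ℂ) * Ist ρ (Ist ρ qc) z)) atTop
      (𝓝 (1 / (ρ - 1 / 2) * qh ρ)) := by
  have hd : ρ - 1 / 2 ≠ 0 := sub_ne_zero.2 hne
  have e1 : ∀ t : ℝ, ∫ z : ℝ, (E0 (t - z) : ℂ) * Ist ρ (Ist ρ qc) z = Ist (1 / 2) (Ist ρ (Ist ρ qc)) t := by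
    intro t
    have h1 : ∀ z : ℝ, (E0 (t - z) : ℂ) * Ist ρ (Ist ρ qc) z =
        (Iic t).indicator (fun z : ℝ => cexp (1 / 2 * t) * (cexp (-(1 / 2) * z) * Ist ρ (Ist ρ qc) z)) z := by
      intro z
      unfold E0
      by_cases hz : z ≤ t
      · rw [indicator_of_mem (show t - z ∈ Ici (0:ℝ) from by simpa using hz), indicator_of_mem (show z ∈ Iic t from hz),
          ← mul_assoc, ← Complex.exp_add, Complex.ofReal_exp]
        congr 2
        push_cast
        ring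
      · rw [indicator_of_notMem (show t - z ∉ Ici (0:ℝ) from by simpa using hz),
          indicator_of_notMem (show z ∉ Iic t from hz)]
        simp
    simp_rw [h1]
    rw [integral_indicator measurableSet_Iic, integral_const_mul]
    rfl
  simp_rw [e1, g2_formula ρ (by linarith) hne]
  obtain ⟨B1, hB1, hb1⟩ := tw_bd ρ (by linarith) (by linarith)
  obtain ⟨B2, hB2, hb2⟩ := tw_bd (1 / 2) (by norm_num) (by norm_num)
  have hs : Tendsto (fun t : ℝ => ((t : ℂ))⁻¹ * (cexp (-ρ * t) * ((Ist ρ qc t - Ist (1 / 2) qc t) / (ρ - 1 / 2)))) atTop (𝓝 0) := by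
    refine inv_lim_of_bd (M := (B1 + B2) / ‖ρ - 1 / 2‖) (Eventually.of_forall fun t => ?_)
    rw [← mul_div_assoc, norm_div]
    refine div_le_div_of_nonneg_right ?_ (norm_nonneg _)
    rw [mul_sub]
    refine (norm_sub_le _ _).trans (add_le_add (hb1 t) ?_)
    have h3 := hb2 t
    rw [norm_mul, norm_tw] at h3 ⊢
    rw [h]
    simpa using h3
  have hm := b2_lim ρ h 0
  simp only [sub_zero] at hm
  have hmm := (hm.sub hs).mul_const (1 / (ρ - 1 / 2))
  rw [sub_zero, mul_comm (qh ρ)] at hmm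
  refine hmm.congr fun t => ?_
  ring

/-- **The limit for a zero on the critical line.** -/
theorem lim2L (ρ : ℂ) (h : ρ.re = 1 / 2) (hne : ρ ≠ 1 / 2) :
    Tendsto (fun t : ℝ => ((t : ℂ))⁻¹ * (cexp (-ρ * t) * ∫ z : ℝ, (NS (t - z) : ℂ) * Ist ρ (Ist ρ qc) z)) atTop
      (𝓝 (riemannZeta (2 * ρ) / ρ * qh ρ)) := by
  have hl := (partA ρ h hne).sub (partB ρ h)
  have e : 1 / (ρ - 1 / 2) * qh ρ - RZ ρ * qh ρ = riemannZeta (2 * ρ) / ρ * qh ρ := by
    rw [RZ_eq ρ h hne]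
    ring
  rw [e] at hl
  refine hl.congr fun t => ?_
  have hQ := Ist_QQ (Ist_QQ qc_QQ ρ (by linarith)) ρ (by linarith)
  have hc := hQ.cont
  have hR := R0_meas
  have hE := E0_meas
  obtain ⟨C, hC, hb⟩ := hQ.bd t
  have hdom : Integrable ((Iic t).indicator fun z : ℝ => C * Real.exp (t / 2) * Real.exp (3 / 2 * z)) := by
    rw [integrable_indicator_iff measurableSet_Iic]
    exact (integrableOn_exp_mul_Iic (by norm_num) t).const_mul _
  have hint : ∀ φ : ℝ → ℝ, Measurable φ → (∀ u < 0, φ u = 0) → (∀ u, |φ u| ≤ Real.exp (u / 2) ∨ u < 0) →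
      Integrable (fun z : ℝ => (φ (t - z) : ℂ) * Ist ρ (Ist ρ qc) z) := by
    intro φ hφ h0 h1
    have hm : Measurable (Ist ρ (Ist ρ qc)) := hc.measurable
    refine hdom.mono' (by fun_prop : Measurable fun z : ℝ => (φ (t - z) : ℂ) * Ist ρ (Ist ρ qc) z).aestronglyMeasurable
      (ae_of_all _ fun z => ?_)
    by_cases hz : z ≤ t
    · rw [indicator_of_mem (show z ∈ Iic t from hz), norm_mul, Complex.norm_real, Real.norm_eq_abs]
      have h2 : |φ (t - z)| ≤ Real.exp ((t - z) / 2) := (h1 (t - z)).resolve_right (by linarith)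
      calc |φ (t - z)| * ‖Ist ρ (Ist ρ qc) z‖ ≤ Real.exp ((t - z) / 2) * (C * Real.exp (2 * z)) :=
            mul_le_mul h2 (hb z hz) (norm_nonneg _) (Real.exp_pos _).le
        _ = C * (Real.exp ((t - z) / 2) * Real.exp (2 * z)) := by ring
        _ = C * (Real.exp (t / 2) * Real.exp (3 / 2 * z)) := by
            rw [← Real.exp_add, ← Real.exp_add]; congr 2; ring
        _ = _ := by ring
    · rw [indicator_of_notMem (show z ∉ Iic t from hz), h0 (t - z) (by linarith)]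
      simp
  have iE := hint E0 E0_meas (fun u hu => indicator_of_notMem (by simpa using hu) _) (fun u => by
    by_cases hu : u ∈ Ici (0:ℝ)
    · left
      unfold E0
      rw [indicator_of_mem hu, abs_of_pos (Real.exp_pos _)]
    · right; exact not_le.1 hu)
  have iR := hint R0 R0_meas (fun u hu => R0_neg hu) (fun u => by
    by_cases hu : u ∈ Ici (0:ℝ)
    · left
      have hu0 : (0:ℝ) ≤ u := hu
      exact (R0_abs u).trans (Real.one_le_exp (by positivity))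
    · right; exact not_le.1 hu)
  have e2 : ∫ z : ℝ, (NS (t - z) : ℂ) * Ist ρ (Ist ρ qc) z =
      (∫ z : ℝ, (E0 (t - z) : ℂ) * Ist ρ (Ist ρ qc) z) - ∫ z : ℝ, (R0 (t - z) : ℂ) * Ist ρ (Ist ρ qc) z := by
    rw [← integral_sub iE iR]
    refine integral_congr_ae (ae_of_all _ fun z => ?_)
    simp only
    rw [NS_split]
    push_cast
    ring
  rw [e2]
  ring

/-- `1/2` is not a zero -/
theorem half_ne (ρ : ℂ) (hz : riemannZeta ρ = 0) : ρ ≠ 1 / 2 := by
  rintro rfl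
  have h1 := Kh_eq (1 / 2) (by norm_num) (by norm_num) (by norm_num)
  rw [hz, zero_mul] at h1
  have h2 : Kh (1 / 2) = ((∫ v : ℝ, Real.exp (-(1 / 2 * v)) * kp v : ℝ) : ℂ) := by
    unfold Kh
    rw [← integral_complex_ofReal]
    refine integral_congr_ae (ae_of_all _ fun z => ?_)
    simp only
    push_cast
    congr 2
    ring
  rw [h2] at h1
  have h3 : ∫ v : ℝ, Real.exp (-(1 / 2 * v)) * kp v = 0 := by exact_mod_cast h1
  obtain ⟨hi, -⟩ := mass_le (1 / 2) (by norm_num) (by norm_num)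
  have h4 : 0 < ∫ v : ℝ, Real.exp (-(1 / 2 * v)) * kp v := by
    rw [integral_pos_iff_support_of_nonneg (fun v => mul_nonneg (Real.exp_pos _).le (kp_nonneg v)) hi]
    have h5 : Function.support (fun v : ℝ => Real.exp (-(1 / 2 * v)) * kp v) = univ := by
      refine eq_univ_of_forall fun v => ?_
      rw [Function.mem_support]
      have h6 : 0 < kp v := lt_of_lt_of_le (by have := W_pos v; positivity) (kp_bounds v).1
      positivity
    rw [h5]
    simp
  linarith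

/-- **Core inequality for multiple zeros on the critical line.** -/
theorem core2L (ρ : ℂ) (hz : riemannZeta ρ = 0) (hz' : deriv riemannZeta ρ = 0) (h : ρ.re = 1 / 2) :
    ∃ c : ℝ, 0 < c ∧ ∀ᶠ t : ℝ in atTop, ∀ s : ℝ, s = 1 ∨ s = -1 →
      c * (t * Real.exp (1 / 2 * t)) ≤ ∫ v : ℝ, max (s * ll (t - v)) 0 * kp v := by
  have h0 : 0 < ρ.re := by linarith
  have h1 : ρ.re < 1 := by linarith
  have hne := half_ne ρ hz
  have hρ : ρ ≠ 0 := by rintro rfl; simp at h0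
  have hQ := Ist_QQ qc_QQ ρ (by linarith)
  have hQ2 := Ist_QQ hQ ρ (by linarith)
  have hre : |ρ.re| ≤ 2 := by rw [abs_of_pos h0]; linarith
  have hre1 : |ρ.re| ≤ 1 := by rw [abs_of_pos h0]; linarith
  have hS : Sg (Ist ρ qc) = Ist ρ kc := by
    funext v
    rw [kc_eq]
    exact (Sg_Ist qc_QQ ρ (by linarith) v).symm
  have hS2 : Sg (Ist ρ (Ist ρ qc)) = Ist ρ (Ist ρ kc) := by
    funext v
    rw [← hS]
    exact (Sg_Ist hQ ρ (by linarith) v).symm
  have hK0 := Kh_zero ρ hz h0 h1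
  have hD1 : DK (Ist ρ kc) := Ist_DK kc_DK ρ hre hK0
  have hm := Ist_moment kc_DK ρ hre1 hK0 (Kh_double ρ hz hz' h0 h1)
  have hD : DK (Sg (Ist ρ (Ist ρ qc))) := by
    rw [hS2]
    exact Ist_DK hD1 ρ hre hm
  obtain ⟨c, hc, C, hcore⟩ := parts_ofL _ hQ2 hD
  have hlim := (lim2L ρ h hne).norm
  set A : ℝ := ‖riemannZeta (2 * ρ) / ρ * qh ρ‖ with hA
  have hA0 : 0 < A := norm_pos_iff.2 (mul_ne_zero
    (div_ne_zero (riemannZeta_ne_zero_of_one_le_re (by simp; linarith)) hρ) (qh_ne ρ h0 h1))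
  refine ⟨c * A / 4, by positivity, ?_⟩
  filter_upwards [hlim.eventually (lt_mem_nhds (show A / 2 < A by linarith)),
    eventually_ge_atTop (|C| / (c * A / 4)), eventually_ge_atTop (1:ℝ)] with t ht1 ht2 ht3 s hs
  have ht0 : 0 < t := by linarith
  rw [div_le_iff₀ (by positivity)] at ht2
  have k1 := hcore t s hs
  rw [norm_mul, norm_mul, norm_tw, norm_inv, Complex.norm_real, Real.norm_eq_abs, abs_of_pos ht0, h] at ht1
  set N : ℝ := ‖∫ z : ℝ, (NS (t - z) : ℂ) * Ist ρ (Ist ρ qc) z‖ with hN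
  have hE : 0 < Real.exp (1 / 2 * t) := Real.exp_pos _
  have k5 : Real.exp (-(1 / 2) * t) * Real.exp (1 / 2 * t) = 1 := by
    rw [← Real.exp_add, show -(1 / 2) * t + 1 / 2 * t = 0 by ring, Real.exp_zero]
  have k2 : A / 2 * (t * Real.exp (1 / 2 * t)) ≤ N := by
    have k3 := mul_le_mul_of_nonneg_right ht1.le (by positivity : 0 ≤ t * Real.exp (1 / 2 * t))
    have k4 : t⁻¹ * (Real.exp (-(1 / 2) * t) * N) * (t * Real.exp (1 / 2 * t)) = N := by
      calc _ = (t⁻¹ * t) * (Real.exp (-(1 / 2) * t) * Real.exp (1 / 2 * t)) * N := by ring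
        _ = N := by rw [k5, inv_mul_cancel₀ ht0.ne']; ring
    rw [k4] at k3
    exact k3
  have k6 : C * Real.exp (t / 2) ≤ c * A / 4 * (t * Real.exp (1 / 2 * t)) := by
    have k7 : Real.exp (t / 2) = Real.exp (1 / 2 * t) := by congr 1; ring
    rw [k7]
    calc C * Real.exp (1 / 2 * t) ≤ |C| * Real.exp (1 / 2 * t) := mul_le_mul_of_nonneg_right (le_abs_self _) hE.le
      _ ≤ (t * (c * A / 4)) * Real.exp (1 / 2 * t) := mul_le_mul_of_nonneg_right ht2 hE.le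
      _ = _ := by ring
  have k8 := mul_le_mul_of_nonneg_left k2 hc.le
  nlinarith

end

end Pool.Agent.V1185.Lio
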