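import Pool.Agent.H313R3.TK.H

/-!
# From averages against the theta kernel to windows, for one function, with a growing factor
-/

open Complex MeasureTheory Filter Topology Set

set_option autoImplicit false

namespace Pool.Agent.V1185.Lio

open H313.TK

noncomputable section

/-- restriction to the window, for any function of size at most `e^u` -/
theorem win2 (f : ℝ → ℝ) (hm : Measurable f) (hf : ∀ u, |f u| ≤ Real.exp u)
    (hcore : ∃ c : ℝ, 0 < c ∧ ∀ᶠ t : ℝ in atTop, c * (t * Real.exp (1 / 2 * t)) ≤ ∫ v : ℝ, max (f (t - v)) 0 * kp v) :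
    ∃ c : ℝ, 0 < c ∧ ∀ᶠ l : ℝ in atTop, c * (ct l * Real.exp (1 / 2 * ct l)) ≤
        ∫ v in Icc (-(Real.log l / 2)) (Real.log l / 2), max (f (ct l - v)) 0 * kp v := by
  obtain ⟨c, hc, hev⟩ := hcore
  refine ⟨c / 2, by positivity, ?_⟩
  have hC0 := C0_nonneg
  have hD1 := D1_nonneg
  set B : ℝ := 8 * C0 * D1 with hB
  have hB0 : 0 ≤ B := by positivity
  have hlim : ∀ᶠ l : ℝ in atTop, B * (l * Real.exp (-(l / 4))) ≤ c / 2 := by
    have h1 : Tendsto (fun l : ℝ => l * Real.exp (-(l / 4))) atTop (𝓝 0) := by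
      have h2 : Tendsto (fun l : ℝ => l / 4) atTop atTop := tendsto_id.atTop_div_const (by norm_num)
      have h3 := (Real.tendsto_pow_mul_exp_neg_atTop_nhds_zero 1).comp h2
      have h4 : Tendsto (fun l : ℝ => 4 * ((l / 4) ^ 1 * Real.exp (-(l / 4)))) atTop (𝓝 (4 * 0)) := h3.const_mul 4
      rw [mul_zero] at h4
      refine h4.congr fun l => ?_
      ring
    have h5 : Tendsto (fun l : ℝ => B * (l * Real.exp (-(l / 4)))) atTop (𝓝 (B * 0)) := h1.const_mul B
    rw [mul_zero] at h5
    exact h5.eventually (ge_mem_nhds (by positivity))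
  filter_upwards [ct_tendsto.eventually hev, ct_tendsto.eventually (eventually_ge_atTop (1:ℝ)), hlim,
    eventually_ge_atTop (1:ℝ)] with l k1 h2 h3 h4
  set a : ℝ := Real.log l / 2 with ha
  have hl0 : 0 < l := by linarith
  have ha0 : 0 ≤ a := by rw [ha]; have := Real.log_nonneg h4; positivity
  have k2 := tail (fun u => max (f u) 0) (by fun_prop) (fun u => le_max_right _ _)
    (fun u => max_le ((le_abs_self _).trans (hf u)) (Real.exp_pos _).le) (ct l) a ha0
  have k3 : Real.exp (ct l + a) * W (-a) ≤ l * Real.exp (l / 4) := by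
    have e1 : Real.exp (ct l + a) = l * Real.exp l := by
      have : ct l + a = Real.log l + l := by unfold ct; rw [ha]; ring
      rw [this, Real.exp_add, Real.exp_log hl0]
    have e2 : W (-a) ≤ Real.exp (-(3 / 4 * l)) := by
      unfold W
      refine Real.exp_le_exp.2 ?_
      rw [max_eq_right (by linarith), abs_neg, abs_of_nonneg ha0]
      have e3 : 2 * a = Real.log l := by rw [ha]; ring
      rw [e3, Real.exp_log hl0]
      have := Real.pi_gt_three
      nlinarith
    rw [e1]
    calc l * Real.exp l * W (-a) ≤ l * Real.exp l * Real.exp (-(3 / 4 * l)) :=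
          mul_le_mul_of_nonneg_left e2 (by positivity)
      _ = l * (Real.exp l * Real.exp (-(3 / 4 * l))) := by ring
      _ = _ := by rw [← Real.exp_add]; congr 2; ring
  have k4 : B * (Real.exp (ct l + a) * W (-a)) ≤ c / 2 * Real.exp (1 / 2 * ct l) := by
    have e1 : B * (Real.exp (ct l + a) * W (-a)) ≤ B * (l * Real.exp (l / 4)) := mul_le_mul_of_nonneg_left k3 hB0
    have e2 : B * (l * Real.exp (l / 4)) = (B * (l * Real.exp (-(l / 4)))) * Real.exp (l / 2) := by
      have : Real.exp (l / 4) = Real.exp (-(l / 4)) * Real.exp (l / 2) := by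
        rw [← Real.exp_add]; congr 1; ring
      rw [this]
      ring
    have e3 : Real.exp (l / 2) ≤ Real.exp (1 / 2 * ct l) := by
      refine Real.exp_le_exp.2 ?_
      have : l ≤ ct l := by unfold ct; linarith
      linarith
    calc B * (Real.exp (ct l + a) * W (-a)) ≤ (B * (l * Real.exp (-(l / 4)))) * Real.exp (l / 2) := by rw [← e2]; exact e1
      _ ≤ c / 2 * Real.exp (l / 2) := mul_le_mul_of_nonneg_right h3 (Real.exp_pos _).le
      _ ≤ _ := mul_le_mul_of_nonneg_left e3 (by positivity)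
  have k5 : Real.exp (1 / 2 * ct l) ≤ ct l * Real.exp (1 / 2 * ct l) := le_mul_of_one_le_left (Real.exp_pos _).le h2
  have k6 := mul_le_mul_of_nonneg_left k5 (by positivity : 0 ≤ c / 2)
  linarith

/-- sup version -/
theorem win2_sup (f : ℝ → ℝ) (hm : Measurable f) (hf : ∀ u, |f u| ≤ Real.exp u)
    (hcore : ∃ c : ℝ, 0 < c ∧ ∀ᶠ t : ℝ in atTop, c * (t * Real.exp (1 / 2 * t)) ≤ ∫ v : ℝ, max (f (t - v)) 0 * kp v) :
    ∃ c : ℝ, 0 < c ∧ ∀ᶠ l : ℝ in atTop, ∃ u ∈ Icc l (l + Real.log l), c * (ct l * Real.exp (1 / 2 * u)) ≤ f u := by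
  obtain ⟨c, hc, hev⟩ := win2 f hm hf hcore
  have hC0 := C0_nonneg
  have hD1 := D1_nonneg
  obtain ⟨hmi, hmass⟩ := mass_le (1 / 2) (by norm_num) (by norm_num)
  refine ⟨c / (4 * C0 * D1 + 1), by positivity, ?_⟩
  filter_upwards [hev, ct_tendsto.eventually (eventually_ge_atTop (1:ℝ)), eventually_ge_atTop (1:ℝ)] with l k1 h2 h3
  by_contra hcon
  push Not at hcon
  set a : ℝ := Real.log l / 2 with ha
  set δ : ℝ := c / (4 * C0 * D1 + 1) * ct l with hδ
  have hδ0 : 0 < δ := by positivity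
  have ha0 : 0 ≤ a := by rw [ha]; have := Real.log_nonneg h3; positivity
  have hi := avg_int (fun u => max (f u) 0) (by fun_prop)
    (fun u => by rw [abs_of_nonneg (le_max_right _ _)]; exact max_le ((le_abs_self _).trans (hf u)) (Real.exp_pos _).le) (ct l)
  have k2 : ∫ v in Icc (-a) a, max (f (ct l - v)) 0 * kp v ≤
      ∫ v in Icc (-a) a, δ * Real.exp (1 / 2 * ct l) * (Real.exp (-(1 / 2 * v)) * kp v) := by
    refine setIntegral_mono_on hi.integrableOn ((hmi.const_mul _).integrableOn) measurableSet_Icc fun v hv => ?_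
    have hu : ct l - v ∈ Icc l (l + Real.log l) := by
      unfold ct
      constructor <;> linarith [hv.1, hv.2]
    have h5 : max (f (ct l - v)) 0 ≤ δ * Real.exp (1 / 2 * (ct l - v)) := by
      refine max_le ((hcon _ hu).le.trans (le_of_eq ?_)) (by positivity)
      rw [hδ]
      ring
    calc max (f (ct l - v)) 0 * kp v ≤ δ * Real.exp (1 / 2 * (ct l - v)) * kp v :=
          mul_le_mul_of_nonneg_right h5 (kp_nonneg v)
      _ = δ * (Real.exp (1 / 2 * ct l) * Real.exp (-(1 / 2 * v))) * kp v := by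
          rw [← Real.exp_add]; congr 3; ring
      _ = _ := by ring
  have k3 : ∫ v in Icc (-a) a, δ * Real.exp (1 / 2 * ct l) * (Real.exp (-(1 / 2 * v)) * kp v) ≤
      δ * Real.exp (1 / 2 * ct l) * (4 * C0 * D1) := by
    rw [integral_const_mul]
    refine mul_le_mul_of_nonneg_left ?_ (by positivity)
    refine (setIntegral_le_integral hmi (ae_of_all _ fun v => ?_)).trans hmass
    exact mul_nonneg (Real.exp_pos _).le (kp_nonneg v)
  have k4 := (k1.trans k2).trans k3
  have k5 : δ * Real.exp (1 / 2 * ct l) * (4 * C0 * D1) = c * (ct l * Real.exp (1 / 2 * ct l)) * ((4 * C0 * D1) / (4 * C0 * D1 + 1)) := by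
    rw [hδ]
    field_simp
  rw [k5] at k4
  have k6 : (4 * C0 * D1) / (4 * C0 * D1 + 1) < 1 := by
    rw [div_lt_one (by positivity)]
    linarith
  have k7 : 0 < c * (ct l * Real.exp (1 / 2 * ct l)) := by positivity
  nlinarith

/-- the sup version in the original variable -/
theorem win2_log (G : ℝ → ℝ) (hm : Measurable fun u => G (Real.exp u)) (hf : ∀ u, |G (Real.exp u)| ≤ Real.exp u)
    (hcore : ∃ c : ℝ, 0 < c ∧ ∀ᶠ t : ℝ in atTop, c * (t * Real.exp (1 / 2 * t)) ≤
      ∫ v : ℝ, max (G (Real.exp (t - v))) 0 * kp v) :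
    ∃ c : ℝ, 0 < c ∧ ∀ᶠ x : ℝ in atTop, ∃ y ∈ Icc x (x * Real.log x), c * (Real.sqrt y * Real.log y) ≤ G y := by
  obtain ⟨c, hc, hev⟩ := win2_sup (fun u => G (Real.exp u)) hm hf hcore
  refine ⟨c / 2, by positivity, ?_⟩
  filter_upwards [Real.tendsto_log_atTop.eventually hev, eventually_ge_atTop (Real.exp 1)] with x hx hx1
  have hx0 : 0 < x := (Real.exp_pos 1).trans_le hx1
  have hl1 : 1 ≤ Real.log x := by rwa [Real.le_log_iff_exp_le hx0]
  obtain ⟨u, hu, hu2⟩ := hx
  have hyl : x ≤ Real.exp u := by rw [← Real.log_le_iff_le_exp hx0]; exact hu.1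
  have hyu : Real.exp u ≤ x * Real.log x := by
    have h2 : Real.log (x * Real.log x) = Real.log x + Real.log (Real.log x) :=
      Real.log_mul hx0.ne' (by linarith)
    rw [← Real.le_log_iff_exp_le (by positivity), h2]
    exact hu.2
  refine ⟨Real.exp u, ⟨hyl, hyu⟩, ?_⟩
  have hs : Real.sqrt (Real.exp u) = Real.exp (1 / 2 * u) := by
    rw [Real.sqrt_eq_rpow, ← Real.exp_mul]
    congr 1
    ring
  rw [hs, Real.log_exp]
  have h5 : u ≤ 2 * ct (Real.log x) := by
    have h7 : Real.log (Real.log x) ≤ Real.log x := (Real.log_le_sub_one_of_pos (by linarith)).trans (by linarith)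
    have h8 : 0 ≤ Real.log (Real.log x) := Real.log_nonneg hl1
    have h9 := hu.2
    unfold ct
    linarith
  calc c / 2 * (Real.exp (1 / 2 * u) * u) ≤ c / 2 * (Real.exp (1 / 2 * u) * (2 * ct (Real.log x))) :=
        mul_le_mul_of_nonneg_left (mul_le_mul_of_nonneg_left h5 (Real.exp_pos _).le) (by positivity)
    _ = c * (ct (Real.log x) * Real.exp (1 / 2 * u)) := by ring
    _ ≤ _ := hu2

end

end Pool.Agent.V1185.Lio
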