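import Pool.Agent.V1185.Lio.G
import Pool.Agent.V1185.Lio.H
import Pool.Agent.H313R3.TK.J

/-!
# Windows for the Liouville sum: the dichotomy
-/

open Filter Topology Set

set_option autoImplicit false

namespace Pool.Agent.V1185.Lio

/-- The Riemann Hypothesis and the simplicity of all nontrivial zeros. -/
def RHS : Prop :=
  ∀ ρ : ℂ, riemannZeta ρ = 0 → 0 < ρ.re → ρ.re < 1 → ρ.re = 1 / 2 ∧ deriv riemannZeta ρ ≠ 0

def BothL (G : ℝ → ℝ) : Prop :=
  ∀ C : ℝ, ∀ᶠ x : ℝ in atTop, ∀ s : ℝ, s = 1 ∨ s = -1 →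
    ∃ y ∈ Icc x (x * Real.log x), C * G y < s * LL y

/-- from a lower bound with a large gauge to `BothL` -/
theorem both_of {G H : ℝ → ℝ} {c : ℝ} (hc : 0 < c)
    (hG : ∀ ε : ℝ, 0 < ε → ∀ᶠ y : ℝ in atTop, |G y| ≤ ε * H y) (hH : ∀ᶠ y : ℝ in atTop, 0 < H y)
    (h : ∀ᶠ x : ℝ in atTop, ∀ s : ℝ, s = 1 ∨ s = -1 → ∃ y ∈ Icc x (x * Real.log x), c * H y ≤ s * LL y) :
    BothL G := by
  intro C
  have h1 := hG (c / (2 * (|C| + 1))) (by positivity)
  obtain ⟨Y, hY⟩ := eventually_atTop.1 (h1.and hH)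
  filter_upwards [h, eventually_ge_atTop Y] with x hx hxY s hs
  obtain ⟨y, hy, hy2⟩ := hx s hs
  obtain ⟨h2, h3⟩ := hY y (hxY.trans hy.1)
  refine ⟨y, hy, lt_of_lt_of_le ?_ hy2⟩
  have h4 : C * G y ≤ |C| * |G y| := by rw [← abs_mul]; exact le_abs_self _
  have h5 : |C| * |G y| ≤ |C| * (c / (2 * (|C| + 1)) * H y) := mul_le_mul_of_nonneg_left h2 (abs_nonneg _)
  have h6 : |C| * (c / (2 * (|C| + 1)) * H y) = (|C| / (|C| + 1)) * (c / 2 * H y) := by
    field_simp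
  have h7 : |C| / (|C| + 1) ≤ 1 := by
    rw [div_le_one (by positivity)]; linarith
  have h8 : 0 < c / 2 * H y := by positivity
  nlinarith [mul_pos hc h3]

/-- Both signs reach `c √y log y` for a multiple zero on the critical line. -/
theorem bothW2 (ρ : ℂ) (hz : riemannZeta ρ = 0) (hz' : deriv riemannZeta ρ = 0) (h : ρ.re = 1 / 2) :
    ∃ c : ℝ, 0 < c ∧ ∀ᶠ x : ℝ in atTop, ∀ s : ℝ, s = 1 ∨ s = -1 →
      ∃ y ∈ Icc x (x * Real.log x), c * (Real.sqrt y * Real.log y) ≤ s * LL y := by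
  obtain ⟨c, hc, hcore⟩ := core2L ρ hz hz' h
  have key : ∀ s : ℝ, s = 1 ∨ s = -1 → ∃ c : ℝ, 0 < c ∧ ∀ᶠ x : ℝ in atTop,
      ∃ y ∈ Icc x (x * Real.log x), c * (Real.sqrt y * Real.log y) ≤ s * LL y := by
    intro s hs
    refine win2_log (fun y => s * LL y) (ll_meas.const_mul s) (fun u => ?_)
      ⟨c, hc, hcore.mono fun t ht => ht s hs⟩
    show |s * ll u| ≤ _
    rw [abs_mul]
    have : |s| = 1 := by rcases hs with h | h <;> rw [h] <;> simp
    rw [this, one_mul]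
    exact abs_ll_le u
  obtain ⟨c1, hc1, k1⟩ := key 1 (Or.inl rfl)
  obtain ⟨c2, hc2, k2⟩ := key (-1) (Or.inr rfl)
  refine ⟨min c1 c2, lt_min hc1 hc2, ?_⟩
  filter_upwards [k1, k2, eventually_ge_atTop (1:ℝ)] with x h3 h4 hx s hs
  rcases hs with rfl | rfl
  · obtain ⟨y, hy, hy2⟩ := h3
    refine ⟨y, hy, le_trans (mul_le_mul_of_nonneg_right (min_le_left _ _) ?_) hy2⟩
    exact mul_nonneg (Real.sqrt_nonneg _) (Real.log_nonneg (hx.trans hy.1))
  · obtain ⟨y, hy, hy2⟩ := h4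
    refine ⟨y, hy, le_trans (mul_le_mul_of_nonneg_right (min_le_right _ _) ?_) hy2⟩
    exact mul_nonneg (Real.sqrt_nonneg _) (Real.log_nonneg (hx.trans hy.1))

/-- The Riemann Hypothesis with simple zeros, or both signs are large in every window, for any gauge
`G = o(√y log y)`. -/
theorem dichotomyL {G : ℝ → ℝ} (hG : ∀ ε : ℝ, 0 < ε → ∀ᶠ y : ℝ in atTop, |G y| ≤ ε * (Real.sqrt y * Real.log y)) :
    RHS ∨ BothL G := by
  by_cases hR : RHS
  · exact Or.inl hR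
  right
  have hlogpos : ∀ᶠ y : ℝ in atTop, 0 < Real.sqrt y * Real.log y := by
    filter_upwards [eventually_gt_atTop 1] with y hy
    exact mul_pos (Real.sqrt_pos.2 (by linarith)) (Real.log_pos hy)
  have off : ∀ ρ : ℂ, riemannZeta ρ = 0 → 1 / 2 < ρ.re → ρ.re < 1 → BothL G := by
    intro ρ hz h0 h1
    obtain ⟨c, hc, h⟩ := bothW ρ hz h0 h1
    refine both_of (H := fun y => y ^ ρ.re) hc ?_ ?_ h
    · intro ε hε
      have h3 := (isLittleO_log_rpow_atTop (show 0 < ρ.re - 1 / 2 by linarith)).def (show (0:ℝ) < 1 by norm_num)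
      filter_upwards [hG ε hε, h3, eventually_gt_atTop 1] with y h4 h5 hy
      have hy0 : 0 < y := by linarith
      rw [Real.norm_eq_abs, Real.norm_eq_abs, abs_of_pos (Real.log_pos hy), abs_of_pos (Real.rpow_pos_of_pos hy0 _),
        one_mul] at h5
      refine h4.trans (mul_le_mul_of_nonneg_left ?_ hε.le)
      calc Real.sqrt y * Real.log y ≤ Real.sqrt y * y ^ (ρ.re - 1 / 2) :=
            mul_le_mul_of_nonneg_left h5 (Real.sqrt_nonneg _)
        _ = y ^ ρ.re := by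
            rw [Real.sqrt_eq_rpow, ← Real.rpow_add hy0]
            congr 1
            ring
    · filter_upwards [eventually_gt_atTop 0] with y hy
      exact Real.rpow_pos_of_pos hy _
  unfold RHS at hR
  push Not at hR
  obtain ⟨ρ, hz, h0, h1, hr⟩ := hR
  rcases lt_trichotomy ρ.re (1 / 2) with hlt | heq | hgt
  · exact off (1 - ρ) (H313.TK.refl_zero ρ hz h0 h1) (by simp; linarith) (by simp; linarith)
  · obtain ⟨c, hc, h⟩ := bothW2 ρ hz (hr heq) heq
    exact both_of (H := fun y => Real.sqrt y * Real.log y) hc hG hlogpos h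
  · exact off ρ hz hgt h1

end Pool.Agent.V1185.Lio
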