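import Pool.Agent.V1185.Lio.I

/-!
# Oscillation of the Liouville sum around `√y / ζ(1/2)` in windows
-/

open Complex MeasureTheory Filter Topology Set

set_option autoImplicit false

namespace Pool.Agent.V1185.Lio

open H313.TK

noncomputable section

/-- the total weight of the kernel -/
def K0 : ℝ := ∫ v : ℝ, Real.exp (-(1 / 2 * v)) * kp v

theorem K0_eq : ((K0 : ℝ) : ℂ) = Kh (1 / 2) := by
  unfold K0 Kh
  rw [← integral_complex_ofReal]
  refine integral_congr_ae (ae_of_all _ fun z => ?_)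
  simp only
  push_cast
  congr 2
  ring

theorem K0_pos : 0 < K0 := by
  obtain ⟨hi, -⟩ := mass_le (1 / 2) (by norm_num) (by norm_num)
  unfold K0
  rw [integral_pos_iff_support_of_nonneg (fun v => mul_nonneg (Real.exp_pos _).le (kp_nonneg v)) hi]
  have h5 : Function.support (fun v : ℝ => Real.exp (-(1 / 2 * v)) * kp v) = univ := by
    refine eq_univ_of_forall fun v => ?_
    rw [Function.mem_support]
    have h6 : 0 < kp v := lt_of_lt_of_le (by have := W_pos v; positivity) (kp_bounds v).1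
    positivity
  rw [h5]
  simp

theorem zeta_half : riemannZeta (1 / 2) = ((K0 / q0 : ℝ) : ℂ) := by
  have h1 := Kh_eq (1 / 2) (by norm_num) (by norm_num) (by norm_num)
  rw [← K0_eq, ← q0_eq] at h1
  have hq : ((q0 : ℝ) : ℂ) ≠ 0 := by exact_mod_cast q0_neg.ne
  push_cast
  rw [eq_div_iff hq]
  exact h1.symm

/-- `1 / ζ(1/2)` -/
def kap : ℝ := q0 / K0

theorem kap_eq : kap = 1 / (riemannZeta (1 / 2)).re := by
  rw [zeta_half, Complex.ofReal_re]
  unfold kap
  rw [one_div_div]

theorem kap_neg : kap < 0 := div_neg_of_neg_of_pos q0_neg K0_pos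

theorem kap_K0 : kap * K0 = q0 := div_mul_cancel₀ _ K0_pos.ne'

theorem E0_Ist (φ : ℝ → ℂ) (t : ℝ) : ∫ z : ℝ, (E0 (t - z) : ℂ) * φ z = Ist (1 / 2) φ t := by
  have h1 : ∀ z : ℝ, (E0 (t - z) : ℂ) * φ z =
      (Iic t).indicator (fun z : ℝ => cexp (1 / 2 * t) * (cexp (-(1 / 2) * z) * φ z)) z := by
    intro z
    unfold E0
    by_cases hz : z ≤ t
    · rw [indicator_of_mem (show t - z ∈ Ici (0:ℝ) from by simpa using hz), indicator_of_mem (show z ∈ Iic t from hz),
        ← mul_assoc, ← Complex.exp_add, Complex.ofReal_exp]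
      congr 2
      push_cast
      ring
    · rw [indicator_of_notMem (show t - z ∉ Ici (0:ℝ) from by simpa using hz),
        indicator_of_notMem (show z ∉ Iic t from hz)]
      simp
  simp_rw [h1]
  rw [integral_indicator measurableSet_Iic, integral_const_mul]
  rfl

theorem Ist_lim (φ : ℝ → ℂ) (hi : Integrable (fun z : ℝ => cexp (-(1 / 2) * z) * φ z)) :
    Tendsto (fun t : ℝ => cexp (-(1 / 2) * t) * Ist (1 / 2) φ t) atTop (𝓝 (∫ z : ℝ, cexp (-(1 / 2) * z) * φ z)) := by
  have h1 := (aecover_Iic (μ := volume) (tendsto_id (α := ℝ) (x := atTop))).integral_tendsto_of_countably_generated hi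
  refine h1.congr fun t => ?_
  unfold Ist
  rw [← mul_assoc, ← Complex.exp_add, show -(1 / 2) * (t : ℂ) + 1 / 2 * t = 0 by ring, Complex.exp_zero, one_mul]
  rfl

theorem DK_QQ {g : ℝ → ℂ} (hg : DK g) : QQ g := by
  obtain ⟨C, hC, hb⟩ := hg.bd
  refine ⟨hg.cont, fun T => ⟨4 * C, by positivity, fun z _ => (hb z).trans ?_⟩⟩
  have h1 := W_decay z
  have h2 : W z ≤ 4 * Real.exp (2 * z) := by
    have h3 : W z = W z * Real.exp (2 * |z|) * Real.exp (-(2 * |z|)) := by
      rw [mul_assoc, ← Real.exp_add, show 2 * |z| + -(2 * |z|) = 0 by ring, Real.exp_zero, mul_one]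
    rw [h3]
    have h4 : Real.exp (-(2 * |z|)) ≤ Real.exp (2 * z) := Real.exp_le_exp.2 (by have := neg_abs_le z; linarith)
    have h5 : W z * Real.exp (2 * |z|) ≤ 4 := h1.trans (by
      have : Real.exp (-|z|) ≤ 1 := Real.exp_le_one_iff.2 (by have := abs_nonneg z; linarith)
      linarith)
    exact mul_le_mul h5 h4 (Real.exp_pos _).le (by norm_num)
  calc C * W z ≤ C * (4 * Real.exp (2 * z)) := mul_le_mul_of_nonneg_left h2 hC
    _ = _ := by ring

theorem DK_lim {g : ℝ → ℂ} (hg : DK g) : Tendsto (fun t : ℝ => cexp (-(1 / 2) * t) * g t) atTop (𝓝 0) := by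
  obtain ⟨C, hC, hb⟩ := hg.bd
  rw [tendsto_zero_iff_norm_tendsto_zero]
  have hl : Tendsto (fun t : ℝ => C * 4 * Real.exp (-t)) atTop (𝓝 0) := by
    have := Real.tendsto_exp_neg_atTop_nhds_zero.const_mul (C * 4)
    rwa [mul_zero] at this
  refine squeeze_zero' (Eventually.of_forall fun _ => norm_nonneg _) ?_ hl
  filter_upwards [eventually_ge_atTop (0:ℝ)] with t ht
  rw [norm_mul, norm_tw]
  have h1 := W_decay t
  have hW := W_pos t
  have h2 : W t ≤ 4 * Real.exp (-t) := by
    have h3 : 1 ≤ Real.exp (2 * |t|) := Real.one_le_exp (by positivity)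
    rw [abs_of_nonneg ht] at h1 h3
    nlinarith
  have h4 : Real.exp (-(1 / 2 : ℂ).re * t) ≤ 1 := by
    rw [Real.exp_le_one_iff]
    norm_num
    linarith
  calc Real.exp (-(1 / 2 : ℂ).re * t) * ‖g t‖ ≤ 1 * (C * W t) :=
        mul_le_mul h4 (hb t) (norm_nonneg _) zero_le_one
    _ ≤ C * 4 * Real.exp (-t) := by nlinarith [mul_le_mul_of_nonneg_left h2 hC]

theorem partB1 (ρ : ℂ) (h : ρ.re = 1 / 2) :
    Tendsto (fun t : ℝ => cexp (-ρ * t) * ∫ z : ℝ, (R0 (t - z) : ℂ) * Ist ρ qc z) atTop (𝓝 (RZ ρ * qh ρ)) := by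
  obtain ⟨B, hB, hbd⟩ := tw_bd ρ (by linarith) (by linarith)
  have hQ := Ist_QQ qc_QQ ρ (by linarith)
  have hc := hQ.cont
  have hR := R0_meas
  have e : ∀ t : ℝ, cexp (-ρ * t) * ∫ z : ℝ, (R0 (t - z) : ℂ) * Ist ρ qc z =
      ∫ u : ℝ, (R0 u : ℂ) * cexp (-ρ * u) * (cexp (-ρ * (t - u : ℝ)) * Ist ρ qc (t - u)) := by
    intro t
    rw [← integral_const_mul, ← integral_sub_left_eq_self (fun z => cexp (-ρ * t) * ((R0 (t - z) : ℂ) * Ist ρ qc z)) volume t]
    refine integral_congr_ae (ae_of_all _ fun u => ?_)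
    simp only
    rw [show t - (t - u) = u by ring]
    have : cexp (-ρ * t) = cexp (-ρ * u) * cexp (-ρ * (t - u : ℝ)) := by
      rw [← Complex.exp_add]; congr 1; push_cast; ring
    rw [this]
    ring
  simp_rw [e]
  unfold RZ
  rw [← integral_mul_const]
  refine tendsto_integral_filter_of_dominated_convergence
    (fun u => (Ici (0:ℝ)).indicator (fun u => Real.exp (-(1 / 2) * u)) u * B) ?_ ?_ (bd_int.mul_const B) ?_
  · refine Eventually.of_forall fun t => ?_
    have hm : Measurable (Ist ρ qc) := hc.measurable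
    exact (by fun_prop : Measurable fun u : ℝ => (R0 u : ℂ) * cexp (-ρ * u) * (cexp (-ρ * (t - u : ℝ)) * Ist ρ qc (t - u))).aestronglyMeasurable
  · refine Eventually.of_forall fun t => ae_of_all _ fun u => ?_
    rw [norm_mul]
    exact mul_le_mul (R0_bd ρ h.ge u) (hbd _) (norm_nonneg _) (indicator_nonneg (fun _ _ => (Real.exp_pos _).le) _)
  · refine ae_of_all _ fun u => ?_
    refine Tendsto.const_mul _ ?_
    have h3 : Tendsto (fun t : ℝ => 24 * Real.exp (-((ρ.re + 2) * (t - u)))) atTop (𝓝 0) := by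
      have h4 : Tendsto (fun t : ℝ => (ρ.re + 2) * (t - u)) atTop atTop :=
        Tendsto.const_mul_atTop (by linarith) (tendsto_atTop_add_const_right _ (-u) tendsto_id)
      have h5 := (Real.tendsto_exp_neg_atTop_nhds_zero.comp h4).const_mul 24
      rw [mul_zero] at h5
      exact h5
    rw [tendsto_iff_norm_sub_tendsto_zero]
    refine squeeze_zero' (Eventually.of_forall fun _ => norm_nonneg _) ?_ h3
    filter_upwards [eventually_ge_atTop u] with t ht
    exact q1_asy ρ (by linarith) (by linarith) (t - u) (by linarith)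

/-- integrability against `QQ` functions -/
theorem hint {g : ℝ → ℂ} (hQ : QQ g) (t : ℝ) (φ : ℝ → ℝ) (hφ : Measurable φ) (h0 : ∀ u < 0, φ u = 0)
    (h1 : ∀ u, |φ u| ≤ Real.exp (u / 2) ∨ u < 0) : Integrable (fun z : ℝ => (φ (t - z) : ℂ) * g z) := by
  have hc := hQ.cont
  obtain ⟨C, hC, hb⟩ := hQ.bd t
  have hdom : Integrable ((Iic t).indicator fun z : ℝ => C * Real.exp (t / 2) * Real.exp (3 / 2 * z)) := by
    rw [integrable_indicator_iff measurableSet_Iic]
    exact (integrableOn_exp_mul_Iic (by norm_num) t).const_mul _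
  have hm : Measurable g := hc.measurable
  refine hdom.mono' (by fun_prop : Measurable fun z : ℝ => (φ (t - z) : ℂ) * g z).aestronglyMeasurable
    (ae_of_all _ fun z => ?_)
  by_cases hz : z ≤ t
  · rw [indicator_of_mem (show z ∈ Iic t from hz), norm_mul, Complex.norm_real, Real.norm_eq_abs]
    have h2 : |φ (t - z)| ≤ Real.exp ((t - z) / 2) := (h1 (t - z)).resolve_right (by linarith)
    calc |φ (t - z)| * ‖g z‖ ≤ Real.exp ((t - z) / 2) * (C * Real.exp (2 * z)) :=
          mul_le_mul h2 (hb z hz) (norm_nonneg _) (Real.exp_pos _).le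
      _ = C * (Real.exp ((t - z) / 2) * Real.exp (2 * z)) := by ring
      _ = C * (Real.exp (t / 2) * Real.exp (3 / 2 * z)) := by
          rw [← Real.exp_add, ← Real.exp_add]; congr 2; ring
      _ = _ := by ring
  · rw [indicator_of_notMem (show z ∉ Iic t from hz), h0 (t - z) (by linarith)]
    simp

theorem E0_int {g : ℝ → ℂ} (hQ : QQ g) (t : ℝ) : Integrable (fun z : ℝ => (E0 (t - z) : ℂ) * g z) :=
  hint hQ t E0 E0_meas (fun u hu => indicator_of_notMem (by simpa using hu) _) (fun u => by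
    by_cases hu : u ∈ Ici (0:ℝ)
    · left
      unfold E0
      rw [indicator_of_mem hu, abs_of_pos (Real.exp_pos _)]
    · right; exact not_le.1 hu)

theorem R0_int' {g : ℝ → ℂ} (hQ : QQ g) (t : ℝ) : Integrable (fun z : ℝ => (R0 (t - z) : ℂ) * g z) :=
  hint hQ t R0 R0_meas (fun u hu => R0_neg hu) (fun u => by
    by_cases hu : u ∈ Ici (0:ℝ)
    · left
      have hu0 : (0:ℝ) ≤ u := hu
      exact (R0_abs u).trans (Real.one_le_exp (by positivity))
    · right; exact not_le.1 hu)

/-- the centred Liouville sum, exponential scale -/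
def fc (u : ℝ) : ℝ := ll u - kap * E0 u

theorem fc_meas : Measurable fc := by
  have := ll_meas
  have := E0_meas
  unfold fc
  fun_prop

theorem E0_abs (u : ℝ) : |E0 u| ≤ Real.exp u := by
  unfold E0
  by_cases hu : u ∈ Ici (0:ℝ)
  · have hu0 : (0:ℝ) ≤ u := hu
    rw [indicator_of_mem hu, abs_of_pos (Real.exp_pos _)]
    exact Real.exp_le_exp.2 (by linarith)
  · rw [indicator_of_notMem hu, abs_zero]
    exact (Real.exp_pos _).le

theorem fc_abs (u : ℝ) : |fc u| ≤ (1 + |kap|) * Real.exp u := by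
  unfold fc
  refine (abs_sub _ _).trans ?_
  rw [abs_mul]
  have h1 := abs_ll_le u
  have h2 := mul_le_mul_of_nonneg_left (E0_abs u) (abs_nonneg kap)
  linarith

/-- the averages of the centred sum are small -/
theorem avg_fc : Tendsto (fun t : ℝ => Real.exp (-(t / 2)) * ∫ v : ℝ, fc (t - v) * kp v) atTop (𝓝 0) := by
  have h1 : Tendsto (fun t : ℝ => Real.exp (-(t / 2)) * ∫ v : ℝ, E0 (t - v) * kp v) atTop (𝓝 K0) := by
    have hK : Integrable (fun z : ℝ => cexp (-(1 / 2) * z) * kc z) := tw_int kc_DK (1 / 2) (by norm_num [abs_le])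
    have h2 := Ist_lim kc hK
    have h3 : ∫ z : ℝ, cexp (-(1 / 2) * z) * kc z = ((K0 : ℝ) : ℂ) := by rw [K0_eq]; rfl
    rw [h3] at h2
    have h4 := (Complex.continuous_re.tendsto _).comp h2
    rw [Complex.ofReal_re] at h4
    refine h4.congr fun t => ?_
    simp only [Function.comp_apply]
    rw [← E0_Ist]
    have h5 : ∫ z : ℝ, (E0 (t - z) : ℂ) * kc z = ((∫ v : ℝ, E0 (t - v) * kp v : ℝ) : ℂ) := by
      rw [← integral_complex_ofReal]
      refine integral_congr_ae (ae_of_all _ fun v => ?_)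
      simp [kc]
    have h6 : cexp (-(1 / 2) * (t : ℂ)) = ((Real.exp (-(t / 2)) : ℝ) : ℂ) := by
      push_cast
      congr 1
      ring
    rw [h5, h6, ← Complex.ofReal_mul, Complex.ofReal_re]
  have h2 := avg_lim.sub (h1.const_mul kap)
  rw [kap_K0, sub_self] at h2
  refine h2.congr fun t => ?_
  have i1 := avg_int ll ll_meas abs_ll_le t
  have i2 := avg_int E0 E0_meas E0_abs t
  have h3 : ∫ v : ℝ, fc (t - v) * kp v = (∫ v : ℝ, ll (t - v) * kp v) - kap * ∫ v : ℝ, E0 (t - v) * kp v := by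
    rw [← integral_const_mul, ← integral_sub i1 (i2.const_mul kap)]
    refine integral_congr_ae (ae_of_all _ fun v => ?_)
    simp only [fc]
    ring
  rw [h3]
  ring

end

end Pool.Agent.V1185.Lio
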