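import Pool.Agent.V1185.Lio.J

/-!
# Oscillation of the Liouville sum around `√y / ζ(1/2)` in windows: the main step
-/

open Complex MeasureTheory Filter Topology Set

set_option autoImplicit false

namespace Pool.Agent.V1185.Lio

open H313.TK

noncomputable section

theorem resol' {g : ℝ → ℂ} (hg : QQ g) (ρ : ℂ) (h1 : ρ.re < 1) (hne : ρ ≠ 1 / 2) (t : ℝ) :
    Ist (1 / 2) (Ist ρ g) t = (Ist ρ g t - Ist (1 / 2) g t) / (ρ - 1 / 2) := by
  have hd : ρ - 1 / 2 ≠ 0 := sub_ne_zero.2 hne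
  have e2 := resolvent hg (1 / 2) ρ (by norm_num) (by linarith) t
  rw [eq_div_iff hd, e2]
  ring

/-- the twisted average of the centred sum -/
def XX (ρ : ℂ) (t : ℝ) : ℂ := ∫ v : ℝ, (fc (t - v) : ℂ) * Ist ρ kc v

theorem XX_eq (ρ : ℂ) (h : ρ.re = 1 / 2) (hz : riemannZeta ρ = 0) (t : ℝ) :
    XX ρ t = (Ist (1 / 2) (Ist ρ qc) t - ∫ z : ℝ, (R0 (t - z) : ℂ) * Ist ρ qc z) - kap * Ist (1 / 2) (Ist ρ kc) t := by
  have h0 : 0 < ρ.re := by linarith
  have h1 : ρ.re < 1 := by linarith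
  have hQ := Ist_QQ qc_QQ ρ (by linarith)
  have hS : Sg (Ist ρ qc) = Ist ρ kc := by
    funext v
    rw [kc_eq]
    exact (Sg_Ist qc_QQ ρ (by linarith) v).symm
  have hre : |ρ.re| ≤ 2 := by rw [abs_of_pos h0]; linarith
  have hD : DK (Ist ρ kc) := Ist_DK kc_DK ρ hre (Kh_zero ρ hz h0 h1)
  have e1 := moebL hQ t
  rw [hS] at e1
  have e2 : ∫ z : ℝ, (NS (t - z) : ℂ) * Ist ρ qc z =
      (∫ z : ℝ, (E0 (t - z) : ℂ) * Ist ρ qc z) - ∫ z : ℝ, (R0 (t - z) : ℂ) * Ist ρ qc z := by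
    rw [← integral_sub (E0_int hQ t) (R0_int' hQ t)]
    refine integral_congr_ae (ae_of_all _ fun z => ?_)
    simp only
    rw [NS_split]
    push_cast
    ring
  rw [E0_Ist] at e2
  -- integrability of the `ll` part
  have hQD := DK_QQ hD
  have iL : Integrable (fun v : ℝ => (ll (t - v) : ℂ) * Ist ρ kc v) := by
    obtain ⟨C, hC, hb⟩ := hD.bd
    have hc := hD.cont
    have hm := ll_meas
    have i2 : Integrable (fun v => |ll (t - v)| * kp v) :=
      avg_int (fun u => |ll u|) (by fun_prop) (fun u => by rw [abs_abs]; exact abs_ll_le u) t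
    have hmm : Measurable (Ist ρ kc) := hc.measurable
    refine (i2.const_mul (2 * C)).mono' (by fun_prop : Measurable fun v : ℝ => (ll (t - v) : ℂ) * Ist ρ kc v).aestronglyMeasurable
      (ae_of_all _ fun v => ?_)
    rw [norm_mul, Complex.norm_real, Real.norm_eq_abs]
    have h6 := (kp_bounds v).1
    have h7 : ‖Ist ρ kc v‖ ≤ 2 * C * kp v := (hb v).trans (by nlinarith)
    calc |ll (t - v)| * ‖Ist ρ kc v‖ ≤ |ll (t - v)| * (2 * C * kp v) := mul_le_mul_of_nonneg_left h7 (abs_nonneg _)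
      _ = _ := by ring
  have iE := E0_int hQD t
  have e3 : XX ρ t = (∫ v : ℝ, (ll (t - v) : ℂ) * Ist ρ kc v) - kap * ∫ v : ℝ, (E0 (t - v) : ℂ) * Ist ρ kc v := by
    unfold XX
    rw [← integral_const_mul, ← integral_sub iL (iE.const_mul _)]
    refine integral_congr_ae (ae_of_all _ fun v => ?_)
    simp only [fc]
    push_cast
    ring
  rw [e3, e1, e2, E0_Ist]

/-- **Twisted averages of the centred sum are of exact order `e^{t/2}`.** -/
theorem XX_low (ρ : ℂ) (h : ρ.re = 1 / 2) (hz : riemannZeta ρ = 0) :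
    ∃ A : ℝ, 0 < A ∧ ∀ᶠ t : ℝ in atTop, A * Real.exp (1 / 2 * t) ≤ ‖XX ρ t‖ := by
  have h0 : 0 < ρ.re := by linarith
  have h1 : ρ.re < 1 := by linarith
  have hne := half_ne ρ hz
  have hd : ρ - 1 / 2 ≠ 0 := sub_ne_zero.2 hne
  have hρ : ρ ≠ 0 := by rintro rfl; simp at h0
  have hre : |ρ.re| ≤ 2 := by rw [abs_of_pos h0]; linarith
  have hD : DK (Ist ρ kc) := Ist_DK kc_DK ρ hre (Kh_zero ρ hz h0 h1)
  -- the limits
  have l1 : Tendsto (fun t : ℝ => cexp (-ρ * t) * Ist ρ qc t) atTop (𝓝 (qh ρ)) := by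
    have h3 : Tendsto (fun t : ℝ => 24 * Real.exp (-((ρ.re + 2) * t))) atTop (𝓝 0) := by
      have h4 : Tendsto (fun t : ℝ => (ρ.re + 2) * t) atTop atTop :=
        Tendsto.const_mul_atTop (by linarith) tendsto_id
      have h5 := (Real.tendsto_exp_neg_atTop_nhds_zero.comp h4).const_mul 24
      rw [mul_zero] at h5
      exact h5
    rw [tendsto_iff_norm_sub_tendsto_zero]
    refine squeeze_zero' (Eventually.of_forall fun _ => norm_nonneg _) ?_ h3
    filter_upwards [eventually_ge_atTop 0] with t ht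
    exact q1_asy ρ h0 h1 t ht
  have l2 := partB1 ρ h
  have hZ : Tendsto (fun t : ℝ => cexp (-ρ * t) * Ist ρ qc t / (ρ - 1 / 2) -
      cexp (-ρ * t) * ∫ z : ℝ, (R0 (t - z) : ℂ) * Ist ρ qc z) atTop (𝓝 (riemannZeta (2 * ρ) / ρ * qh ρ)) := by
    have h3 := (l1.div_const (ρ - 1 / 2)).sub l2
    have e : qh ρ / (ρ - 1 / 2) - RZ ρ * qh ρ = riemannZeta (2 * ρ) / ρ * qh ρ := by
      rw [RZ_eq ρ h hne]
      ring
    rwa [e] at h3
  have hKi : Integrable (fun z : ℝ => cexp (-(1 / 2) * z) * kc z) := tw_int kc_DK (1 / 2) (by norm_num [abs_le])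
  have hqi : Integrable (fun z : ℝ => cexp (-(1 / 2) * z) * qc z) := by
    refine ((int_exp_abs 1 one_pos).const_mul 48).mono' ?_ (ae_of_all _ fun y => ?_)
    · have := qq_cont
      unfold qc
      exact (by fun_prop : Continuous fun y : ℝ => cexp (-(1 / 2) * y) * (qq y : ℂ)).aestronglyMeasurable
    · rw [norm_mul, norm_tw]
      calc Real.exp (-(1 / 2 : ℂ).re * y) * ‖qc y‖ ≤ Real.exp |y| * (48 * Real.exp (-(2 * |y|))) := by
            refine mul_le_mul (Real.exp_le_exp.2 ?_) (qq_bd y) (norm_nonneg _) (Real.exp_pos _).le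
            have h3 := neg_abs_le y
            have h4 := abs_nonneg y
            norm_num
            linarith
        _ = 48 * (Real.exp |y| * Real.exp (-(2 * |y|))) := by ring
        _ = 48 * Real.exp (-(1 * |y|)) := by rw [← Real.exp_add]; congr 2; ring
  have l3 := Ist_lim qc hqi
  have l4 := Ist_lim kc hKi
  have l5 := DK_lim hD
  have c3 : ∫ z : ℝ, cexp (-(1 / 2) * z) * qc z = ((q0 : ℝ) : ℂ) := by rw [q0_eq]; rfl
  have c4 : ∫ z : ℝ, cexp (-(1 / 2) * z) * kc z = ((K0 : ℝ) : ℂ) := by rw [K0_eq]; rfl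
  rw [c3] at l3
  rw [c4] at l4
  have hY : Tendsto (fun t : ℝ => (-(cexp (-(1 / 2) * t) * Ist (1 / 2) qc t) -
      kap * (cexp (-(1 / 2) * t) * Ist ρ kc t - cexp (-(1 / 2) * t) * Ist (1 / 2) kc t)) / (ρ - 1 / 2)) atTop (𝓝 0) := by
    have h3 := (l3.neg.sub ((l5.sub l4).const_mul (kap : ℂ))).div_const (ρ - 1 / 2)
    have e : (-((q0 : ℝ) : ℂ) - (kap : ℂ) * (0 - ((K0 : ℝ) : ℂ))) / (ρ - 1 / 2) = 0 := by
      have : (kap : ℂ) * ((K0 : ℝ) : ℂ) = ((q0 : ℝ) : ℂ) := by rw [← Complex.ofReal_mul, kap_K0]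
      rw [zero_sub, mul_neg, this]
      simp
    rwa [e] at h3
  have key : ∀ t : ℝ, cexp (-(1 / 2) * t) * XX ρ t = cexp ((ρ - 1 / 2) * t) * (cexp (-ρ * t) * Ist ρ qc t / (ρ - 1 / 2) -
      cexp (-ρ * t) * ∫ z : ℝ, (R0 (t - z) : ℂ) * Ist ρ qc z) + (-(cexp (-(1 / 2) * t) * Ist (1 / 2) qc t) -
      kap * (cexp (-(1 / 2) * t) * Ist ρ kc t - cexp (-(1 / 2) * t) * Ist (1 / 2) kc t)) / (ρ - 1 / 2) := by
    intro t
    rw [XX_eq ρ h hz t, resol' qc_QQ ρ h1 hne t, resol' (DK_QQ kc_DK) ρ h1 hne t]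
    have e1 : cexp ((ρ - 1 / 2) * t) * cexp (-ρ * t) = cexp (-(1 / 2) * t) := by
      rw [← Complex.exp_add]; congr 1; ring
    rw [← e1]
    field_simp
    ring
  set A : ℝ := ‖riemannZeta (2 * ρ) / ρ * qh ρ‖ with hA
  have hA0 : 0 < A := norm_pos_iff.2 (mul_ne_zero
    (div_ne_zero (riemannZeta_ne_zero_of_one_le_re (by simp; linarith)) hρ) (qh_ne ρ h0 h1))
  refine ⟨A / 4, by positivity, ?_⟩
  have hYn := hY.norm
  rw [norm_zero] at hYn
  filter_upwards [hZ.norm.eventually (lt_mem_nhds (show A / 2 < A by linarith)),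
    hYn.eventually (gt_mem_nhds (show 0 < A / 4 by positivity))] with t k1 k2
  have k3 := key t
  have k4 : ‖cexp (-(1 / 2) * t) * XX ρ t‖ = Real.exp (-(1 / 2) * t) * ‖XX ρ t‖ := by
    rw [norm_mul, norm_tw]
    congr 2
    norm_num
  have k5 : ‖cexp ((ρ - 1 / 2) * (t : ℂ))‖ = 1 := by
    rw [norm_tw', Complex.sub_re, h]
    norm_num
  set Z := cexp (-ρ * t) * Ist ρ qc t / (ρ - 1 / 2) - cexp (-ρ * t) * ∫ z : ℝ, (R0 (t - z) : ℂ) * Ist ρ qc z with hZd
  set Y := (-(cexp (-(1 / 2) * t) * Ist (1 / 2) qc t) -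
      kap * (cexp (-(1 / 2) * t) * Ist ρ kc t - cexp (-(1 / 2) * t) * Ist (1 / 2) kc t)) / (ρ - 1 / 2) with hYd
  have k6 : ‖Z‖ ≤ ‖cexp (-(1 / 2) * t) * XX ρ t‖ + ‖Y‖ := by
    have e : cexp ((ρ - 1 / 2) * t) * Z = cexp (-(1 / 2) * t) * XX ρ t - Y := by rw [k3]; ring
    have e2 : ‖Z‖ = ‖cexp ((ρ - 1 / 2) * t) * Z‖ := by rw [norm_mul, k5, one_mul]
    rw [e2, e]
    exact norm_sub_le _ _
  rw [k4] at k6
  have k7 : A / 4 ≤ Real.exp (-(1 / 2) * t) * ‖XX ρ t‖ := by linarith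
  have k8 := mul_le_mul_of_nonneg_right k7 (Real.exp_pos (1 / 2 * t)).le
  have k9 : Real.exp (-(1 / 2) * t) * ‖XX ρ t‖ * Real.exp (1 / 2 * t) = ‖XX ρ t‖ := by
    have : Real.exp (-(1 / 2) * t) * Real.exp (1 / 2 * t) = 1 := by
      rw [← Real.exp_add, show -(1 / 2) * t + 1 / 2 * t = 0 by ring, Real.exp_zero]
    calc _ = (Real.exp (-(1 / 2) * t) * Real.exp (1 / 2 * t)) * ‖XX ρ t‖ := by ring
      _ = _ := by rw [this, one_mul]
  rw [k9] at k8
  exact k8

/-- both parts of the centred sum -/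
theorem core_fc (ρ : ℂ) (h : ρ.re = 1 / 2) (hz : riemannZeta ρ = 0) :
    ∃ c : ℝ, 0 < c ∧ ∀ᶠ t : ℝ in atTop, ∀ s : ℝ, s = 1 ∨ s = -1 →
      c * Real.exp (1 / 2 * t) ≤ ∫ v : ℝ, max (s * fc (t - v) / (1 + |kap|)) 0 * kp v := by
  have h0 : 0 < ρ.re := by linarith
  have h1 : ρ.re < 1 := by linarith
  have hre : |ρ.re| ≤ 2 := by rw [abs_of_pos h0]; linarith
  have hD : DK (Ist ρ kc) := Ist_DK kc_DK ρ hre (Kh_zero ρ hz h0 h1)
  obtain ⟨B, hB, hb⟩ := hD.bd
  obtain ⟨A, hA, hX⟩ := XX_low ρ h hz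
  have hM : 0 < 1 + |kap| := by positivity
  refine ⟨A / (8 * (B + 1)) / (1 + |kap|), by positivity, ?_⟩
  have hsm := avg_fc
  have hsm2 : ∀ᶠ t : ℝ in atTop, |Real.exp (-(t / 2)) * ∫ v : ℝ, fc (t - v) * kp v| < A / (4 * (B + 1)) := by
    have := hsm.abs
    rw [abs_zero] at this
    exact this.eventually (gt_mem_nhds (by positivity))
  filter_upwards [hX, hsm2] with t k1 k2 s hs
  have hm := fc_meas
  -- integrability
  have j : ∀ ψ : ℝ → ℝ, Measurable ψ → (∀ u, |ψ u| ≤ |fc u|) → Integrable (fun v => ψ (t - v) * kp v) := by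
    intro ψ hψ hψ2
    have h3 := avg_int (fun u => ψ u / (1 + |kap|)) (by fun_prop) (fun u => by
      rw [abs_div, abs_of_pos hM, div_le_iff₀ hM, mul_comm]
      exact (hψ2 u).trans (fc_abs u)) t
    refine (h3.const_mul (1 + |kap|)).congr (ae_of_all _ fun v => ?_)
    simp only
    field_simp
  have i1 := j fc hm (fun u => le_rfl)
  have i2 := j (fun u => |fc u|) (by fun_prop) (fun u => by rw [abs_abs])
  have i3 := j (fun u => max (s * fc u) 0) (by fun_prop) (fun u => part_le s hs _)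
  have e1 : ∫ v, |fc (t - v)| * kp v = 2 * (∫ v, max (s * fc (t - v)) 0 * kp v) - s * ∫ v, fc (t - v) * kp v := by
    rw [← integral_const_mul, ← integral_const_mul, ← integral_sub (i3.const_mul 2) (i1.const_mul s)]
    refine integral_congr_ae (ae_of_all _ fun v => ?_)
    simp only
    rw [part_id s hs (fc (t - v))]
    ring
  have e4 : ‖XX ρ t‖ ≤ (2 * (B + 1)) * ∫ v, |fc (t - v)| * kp v := by
    unfold XX
    rw [← integral_const_mul]
    refine norm_integral_le_of_norm_le (i2.const_mul _) (ae_of_all _ fun v => ?_)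
    rw [norm_mul, Complex.norm_real, Real.norm_eq_abs]
    have h5 : ‖Ist ρ kc v‖ ≤ 2 * (B + 1) * kp v := by
      refine (hb v).trans ?_
      have h6 := (kp_bounds v).1
      have h7 := W_pos v
      nlinarith
    calc |fc (t - v)| * ‖Ist ρ kc v‖ ≤ |fc (t - v)| * (2 * (B + 1) * kp v) :=
          mul_le_mul_of_nonneg_left h5 (abs_nonneg _)
      _ = _ := by ring
  have hEpos := Real.exp_pos (1 / 2 * t)
  have e5 : |s * ∫ v : ℝ, fc (t - v) * kp v| ≤ A / (4 * (B + 1)) * Real.exp (1 / 2 * t) := by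
    rw [abs_mul]
    have : |s| = 1 := by rcases hs with h | h <;> rw [h] <;> simp
    rw [this, one_mul]
    rw [abs_mul, abs_of_pos (Real.exp_pos _)] at k2
    have h3 := mul_le_mul_of_nonneg_right k2.le hEpos.le
    have h4 : Real.exp (-(t / 2)) * |∫ v : ℝ, fc (t - v) * kp v| * Real.exp (1 / 2 * t) = |∫ v : ℝ, fc (t - v) * kp v| := by
      have : Real.exp (-(t / 2)) * Real.exp (1 / 2 * t) = 1 := by
        rw [← Real.exp_add, show -(t / 2) + 1 / 2 * t = 0 by ring, Real.exp_zero]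
      calc _ = (Real.exp (-(t / 2)) * Real.exp (1 / 2 * t)) * |∫ v : ℝ, fc (t - v) * kp v| := by ring
        _ = _ := by rw [this, one_mul]
    rwa [h4] at h3
  have e6 : A / (2 * (B + 1)) * Real.exp (1 / 2 * t) ≤ ∫ v, |fc (t - v)| * kp v := by
    have h3 := k1.trans e4
    rw [div_mul_eq_mul_div, div_le_iff₀ (by positivity)]
    linarith
  have e7 : A / (8 * (B + 1)) * Real.exp (1 / 2 * t) ≤ ∫ v, max (s * fc (t - v)) 0 * kp v := by
    rw [e1] at e6
    have h3 := (abs_le.1 e5).1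
    have h4 : A / (2 * (B + 1)) = 4 * (A / (8 * (B + 1))) := by field_simp; ring
    have h5 : A / (4 * (B + 1)) = 2 * (A / (8 * (B + 1))) := by field_simp; ring
    rw [h4] at e6
    rw [h5] at h3
    linarith
  have e8 : ∫ v : ℝ, max (s * fc (t - v) / (1 + |kap|)) 0 * kp v = (∫ v, max (s * fc (t - v)) 0 * kp v) / (1 + |kap|) := by
    rw [← integral_div]
    refine integral_congr_ae (ae_of_all _ fun v => ?_)
    simp only
    have h9 := max_div_div_right hM.le (s * fc (t - v)) 0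
    rw [zero_div] at h9
    rw [h9]
    ring
  rw [e8, div_mul_eq_mul_div]
  exact div_le_div_of_nonneg_right e7 hM.le

end

end Pool.Agent.V1185.Lio
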