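import Pool.Agent.V1185.Lio.K

/-!
# Oscillation of the Liouville sum around `√y / ζ(1/2)` in windows
-/

open Complex MeasureTheory Filter Topology Set

set_option autoImplicit false

namespace Pool.Agent.V1185.Lio

open H313.TK

noncomputable section

/-- the centred Liouville sum -/
def GG (y : ℝ) : ℝ := LL y - kap * (if 1 ≤ y then Real.sqrt y else 0)

theorem GG_exp (u : ℝ) : GG (Real.exp u) = fc u := by
  unfold GG fc ll E0
  congr 2
  by_cases hu : 0 ≤ u
  · rw [indicator_of_mem (show u ∈ Ici (0:ℝ) from hu), if_pos (Real.one_le_exp hu), Real.sqrt_eq_rpow, ← Real.exp_mul]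
    congr 1
    ring
  · rw [indicator_of_notMem (show u ∉ Ici (0:ℝ) from hu), if_neg (by
      rw [not_le, Real.exp_lt_one_iff]
      exact not_le.1 hu)]

/-- **Both signs of `L(y) - √y/ζ(1/2)` reach `c √y` in every window.** -/
theorem centred : ∃ c : ℝ, 0 < c ∧ ∀ᶠ x : ℝ in atTop, ∀ s : ℝ, s = 1 ∨ s = -1 →
    ∃ y ∈ Icc x (x * Real.log x), c * Real.sqrt y ≤ s * (LL y - Real.sqrt y / (riemannZeta (1 / 2)).re) := by
  have hk : ∀ y : ℝ, Real.sqrt y / (riemannZeta (1 / 2)).re = kap * Real.sqrt y := by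
    intro y
    rw [kap_eq]
    ring
  simp_rw [hk]
  obtain ⟨ρ, hz, h0, h1⟩ := H313.TK.exists_zero
  rcases h0.eq_or_lt with heq | hgt
  · -- on the line
    obtain ⟨c, hc, hcore⟩ := core_fc ρ heq.symm hz
    have hM : 0 < 1 + |kap| := by positivity
    have key : ∀ s : ℝ, s = 1 ∨ s = -1 → ∃ c : ℝ, 0 < c ∧ ∀ᶠ x : ℝ in atTop,
        ∃ y ∈ Icc x (x * Real.log x), c * y ^ (1 / 2 : ℝ) ≤ s * GG y / (1 + |kap|) := by
      intro s hs
      refine win1_log (fun y => s * GG y / (1 + |kap|)) ?_ (fun u => ?_) (1 / 2) le_rfl (by norm_num)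
        ⟨c, hc, hcore.mono fun t ht => ?_⟩
      · have := fc_meas
        simp_rw [GG_exp]
        fun_prop
      · simp only [GG_exp]
        rw [abs_div, abs_of_pos hM, div_le_iff₀ hM, abs_mul]
        have : |s| = 1 := by rcases hs with h | h <;> rw [h] <;> simp
        rw [this, one_mul, mul_comm]
        exact fc_abs u
      · simp_rw [GG_exp]
        exact ht s hs
    obtain ⟨c1, hc1, k1⟩ := key 1 (Or.inl rfl)
    obtain ⟨c2, hc2, k2⟩ := key (-1) (Or.inr rfl)
    refine ⟨min c1 c2 * (1 + |kap|), by have := lt_min hc1 hc2; positivity, ?_⟩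
    filter_upwards [k1, k2, eventually_ge_atTop (1:ℝ)] with x h3 h4 hx s hs
    have fin : ∀ s c' : ℝ, min c1 c2 ≤ c' → (∃ y ∈ Icc x (x * Real.log x), c' * y ^ (1 / 2 : ℝ) ≤ s * GG y / (1 + |kap|)) →
        ∃ y ∈ Icc x (x * Real.log x), min c1 c2 * (1 + |kap|) * Real.sqrt y ≤ s * (LL y - kap * Real.sqrt y) := by
      intro s c' hc' ⟨y, hy, hy2⟩
      refine ⟨y, hy, ?_⟩
      have hy1 : 1 ≤ y := hx.trans hy.1
      rw [← Real.sqrt_eq_rpow, le_div_iff₀ hM] at hy2
      unfold GG at hy2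
      rw [if_pos hy1] at hy2
      refine le_trans ?_ hy2
      have h5 := mul_le_mul_of_nonneg_right hc' (mul_nonneg (Real.sqrt_nonneg y) hM.le)
      linarith
    rcases hs with rfl | rfl
    · exact fin 1 c1 (min_le_left _ _) h3
    · exact fin (-1) c2 (min_le_right _ _) h4
  · -- to the right of the line
    obtain ⟨c, hc, hev⟩ := bothW ρ hz hgt h1
    refine ⟨1, one_pos, ?_⟩
    have hlim : Tendsto (fun y : ℝ => y ^ (ρ.re - 1 / 2)) atTop atTop := tendsto_rpow_atTop (by linarith)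
    obtain ⟨Y, hY⟩ := eventually_atTop.1 (hlim.eventually_ge_atTop ((|kap| + 1) / c))
    filter_upwards [hev, eventually_ge_atTop Y, eventually_ge_atTop (1:ℝ)] with x hx hxY hx1 s hs
    obtain ⟨y, hy, hy2⟩ := hx s hs
    refine ⟨y, hy, ?_⟩
    have hy0 : 0 < y := by linarith [hy.1]
    have h5 := hY y (hxY.trans hy.1)
    rw [div_le_iff₀ hc] at h5
    have h6 : y ^ ρ.re = y ^ (ρ.re - 1 / 2) * Real.sqrt y := by
      rw [Real.sqrt_eq_rpow, ← Real.rpow_add hy0]
      congr 1
      ring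
    have h7 : (|kap| + 1) * Real.sqrt y ≤ c * y ^ ρ.re := by
      rw [h6]
      have := mul_le_mul_of_nonneg_right h5 (Real.sqrt_nonneg y)
      linarith
    have h8 : s * (kap * Real.sqrt y) ≤ |kap| * Real.sqrt y := by
      have : s * kap ≤ |kap| := by
        rcases hs with rfl | rfl
        · rw [one_mul]; exact le_abs_self _
        · rw [neg_one_mul]; exact neg_le_abs _
      have := mul_le_mul_of_nonneg_right this (Real.sqrt_nonneg y)
      linarith
    rw [mul_sub]
    linarith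

theorem zeta_half_neg : (riemannZeta (1 / 2)).re < 0 := by
  rw [zeta_half, Complex.ofReal_re]
  exact div_neg_of_pos_of_neg K0_pos q0_neg

end

end Pool.Agent.V1185.Lio
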