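import Pool.Agent.V1185.Lio.M
import Pool.Agent.H313R3.TK.I

/-!
# Mean squares over windows
-/

open Complex MeasureTheory Filter Topology Set

set_option autoImplicit false

namespace Pool.Agent.V1185.Lio

open H313.TK

noncomputable section

/-- mean square version -/
theorem win1_sq (f : ℝ → ℝ) (hm : Measurable f) (hf : ∀ u, |f u| ≤ Real.exp u) (β : ℝ) (hβ : 1 / 2 ≤ β) (hβ1 : β ≤ 1)
    (hcore : ∃ c : ℝ, 0 < c ∧ ∀ᶠ t : ℝ in atTop, c * Real.exp (β * t) ≤ ∫ v : ℝ, max (f (t - v)) 0 * kp v) :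
    ∃ c : ℝ, 0 < c ∧ ∀ᶠ l : ℝ in atTop,
      c ≤ ∫ u in Icc l (l + Real.log l), (max (f u) 0) ^ 2 * Real.exp (-(2 * β * u)) := by
  obtain ⟨c, hc, hev⟩ := win1 f hm hf β hβ hcore
  have hC0 := C0_nonneg
  have hD1 := D1_nonneg
  obtain ⟨hmi, hmass⟩ := mass_le 0 le_rfl (by norm_num)
  set K : ℝ := 4 * C0 * D1 + 1 with hK
  have hK0 : 0 < K := by positivity
  refine ⟨c ^ 2 / (K * (4 * C0 + 1)), by positivity, ?_⟩
  filter_upwards [hev, eventually_ge_atTop (1:ℝ)] with l h1 h3
  set a : ℝ := Real.log l / 2 with ha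
  have ha0 : 0 ≤ a := by rw [ha]; have := Real.log_nonneg h3; positivity
  set t : ℝ := ct l with ht
  have hta : t - a = l := by rw [ht, ha]; unfold ct; ring
  have hta2 : t + a = l + Real.log l := by rw [ht, ha]; unfold ct; ring
  have hk := kp_cont
  set F : ℝ → ℝ := fun u => max (f u) 0 with hF
  have hF0 : ∀ u, 0 ≤ F u := fun u => le_max_right _ _
  have hFm : Measurable F := by simp only [hF]; fun_prop
  have hFb : ∀ u, F u ≤ Real.exp u := fun u => max_le ((le_abs_self _).trans (hf u)) (Real.exp_pos _).le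
  set X : ℝ := ∫ v in Icc (-a) a, F (t - v) * kp v with hX
  have hXlow : c * Real.exp (β * t) ≤ X := h1
  have hX0 : 0 < X := lt_of_lt_of_le (by positivity) hXlow
  have hbd : ∀ v ∈ Icc (-a) a, F (t - v) ≤ Real.exp (t + a) := fun v hv =>
    (hFb _).trans (Real.exp_le_exp.2 (by linarith [hv.1]))
  have i1 : IntegrableOn (fun v => F (t - v) * kp v) (Icc (-a) a) :=
    (avg_int F hFm (fun u => by rw [abs_of_nonneg (hF0 u)]; exact hFb u) t).integrableOn
  have i0 : IntegrableOn kp (Icc (-a) a) := hk.continuousOn.integrableOn_compact isCompact_Icc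
  have i2 : IntegrableOn (fun v => (F (t - v)) ^ 2 * kp v) (Icc (-a) a) := by
    refine Integrable.mono' (g := fun v => Real.exp (t + a) ^ 2 * kp v) (i0.const_mul _) ?_ ?_
    · exact (by fun_prop : Measurable fun v => (F (t - v)) ^ 2 * kp v).aestronglyMeasurable
    · refine (ae_restrict_iff' measurableSet_Icc).2 (ae_of_all _ fun v hv => ?_)
      rw [Real.norm_eq_abs, abs_of_nonneg (mul_nonneg (sq_nonneg _) (kp_nonneg v))]
      exact mul_le_mul_of_nonneg_right (pow_le_pow_left₀ (hF0 _) (hbd v hv) 2) (kp_nonneg v)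
  set Y : ℝ := ∫ v in Icc (-a) a, (F (t - v)) ^ 2 * kp v with hY
  have hmass' : ∫ v in Icc (-a) a, kp v ≤ K := by
    have h5 : ∫ v in Icc (-a) a, kp v ≤ ∫ v, kp v := by
      refine setIntegral_le_integral ?_ (ae_of_all _ fun v => kp_nonneg v)
      refine hmi.congr (ae_of_all _ fun v => ?_)
      simp
    have h6 : ∫ v, kp v ≤ 4 * C0 * D1 := by
      refine le_trans (le_of_eq ?_) hmass
      refine integral_congr_ae (ae_of_all _ fun v => ?_)
      simp
    linarith
  have hCS : X ^ 2 ≤ K * Y := by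
    set lam : ℝ := K / X with hlam
    have hlam0 : 0 < lam := by positivity
    have h5 : X ≤ lam / 2 * Y + 1 / (2 * lam) * ∫ v in Icc (-a) a, kp v := by
      rw [hX, hY, ← integral_const_mul, ← integral_const_mul, ← integral_add (i2.const_mul _) (i0.const_mul _)]
      refine setIntegral_mono_on i1 ((i2.const_mul _).add (i0.const_mul _)) measurableSet_Icc fun v hv => ?_
      have h6 : F (t - v) ≤ lam / 2 * (F (t - v)) ^ 2 + 1 / (2 * lam) := by
        have h7 := sq_nonneg (lam * F (t - v) - 1)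
        have h8 : F (t - v) * (2 * lam) ≤ (lam / 2 * (F (t - v)) ^ 2 + 1 / (2 * lam)) * (2 * lam) := by
          have h9 : 1 / (2 * lam) * (2 * lam) = 1 := by field_simp
          nlinarith
        exact le_of_mul_le_mul_right h8 (by positivity)
      calc F (t - v) * kp v ≤ (lam / 2 * (F (t - v)) ^ 2 + 1 / (2 * lam)) * kp v :=
            mul_le_mul_of_nonneg_right h6 (kp_nonneg v)
        _ = _ := by ring
    have h6 : 1 / (2 * lam) * ∫ v in Icc (-a) a, kp v ≤ 1 / (2 * lam) * K :=
      mul_le_mul_of_nonneg_left hmass' (by positivity)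
    have h7 : 1 / (2 * lam) * K = X / 2 := by
      rw [hlam]
      field_simp
    have h8 : lam / 2 * Y = K * Y / (2 * X) := by
      rw [hlam]
      field_simp
    have h9 : X / 2 ≤ K * Y / (2 * X) := by linarith
    rw [le_div_iff₀ (by positivity)] at h9
    nlinarith
  have hYle : Y ≤ 4 * C0 * Real.exp (2 * β * t) * ∫ u in Icc l (l + Real.log l), (F u) ^ 2 * Real.exp (-(2 * β * u)) := by
    have hrefl := refl_Icc (fun u => (F u) ^ 2 * Real.exp (-(2 * β * u))) t a
    rw [hta, hta2] at hrefl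
    rw [← hrefl, ← integral_const_mul]
    refine setIntegral_mono_on i2 ?_ measurableSet_Icc fun v hv => ?_
    · refine Integrable.mono' (g := fun v => 4 * C0 * Real.exp (2 * β * t) * (Real.exp (t + a) ^ 2 * Real.exp (-(2 * β * (t - v))))) ?_ ?_ ?_
      · exact (by fun_prop : Continuous fun v => 4 * C0 * Real.exp (2 * β * t) * (Real.exp (t + a) ^ 2 * Real.exp (-(2 * β * (t - v))))).continuousOn.integrableOn_compact isCompact_Icc
      · exact (by fun_prop : Measurable fun v => 4 * C0 * Real.exp (2 * β * t) * ((F (t - v)) ^ 2 * Real.exp (-(2 * β * (t - v))))).aestronglyMeasurable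
      · refine (ae_restrict_iff' measurableSet_Icc).2 (ae_of_all _ fun v hv => ?_)
        rw [Real.norm_eq_abs, abs_of_nonneg (by positivity)]
        refine mul_le_mul_of_nonneg_left ?_ (by positivity)
        exact mul_le_mul_of_nonneg_right (pow_le_pow_left₀ (hF0 _) (hbd v hv) 2) (Real.exp_pos _).le
    · have h5 := kp_le_exp β v (by linarith) hβ1
      calc (F (t - v)) ^ 2 * kp v ≤ (F (t - v)) ^ 2 * (4 * C0 * Real.exp (2 * β * v)) :=
            mul_le_mul_of_nonneg_left h5 (sq_nonneg _)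
        _ = 4 * C0 * ((F (t - v)) ^ 2 * (Real.exp (2 * β * t) * Real.exp (-(2 * β * (t - v))))) := by
            rw [← Real.exp_add]
            have : 2 * β * t + -(2 * β * (t - v)) = 2 * β * v := by ring
            rw [this]
            ring
        _ = _ := by ring
  set I : ℝ := ∫ u in Icc l (l + Real.log l), (F u) ^ 2 * Real.exp (-(2 * β * u)) with hI
  have hI0 : 0 ≤ I := integral_nonneg fun u => by positivity
  have hE : Real.exp (2 * β * t) = Real.exp (β * t) ^ 2 := by
    rw [← Real.exp_nat_mul]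
    congr 1
    push_cast
    ring
  have hE0 := Real.exp_pos (β * t)
  have h5 : (c * Real.exp (β * t)) ^ 2 ≤ X ^ 2 := pow_le_pow_left₀ (by positivity) hXlow 2
  have h6 : K * Y ≤ K * (4 * C0 * Real.exp (β * t) ^ 2 * I) := by
    rw [hE] at hYle
    exact mul_le_mul_of_nonneg_left hYle hK0.le
  have h7 : c ^ 2 * Real.exp (β * t) ^ 2 ≤ (K * (4 * C0) * I) * Real.exp (β * t) ^ 2 := by
    calc c ^ 2 * Real.exp (β * t) ^ 2 = (c * Real.exp (β * t)) ^ 2 := by ring
      _ ≤ K * (4 * C0 * Real.exp (β * t) ^ 2 * I) := (h5.trans hCS).trans h6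
      _ = _ := by ring
  have h8 : c ^ 2 ≤ K * (4 * C0) * I := le_of_mul_le_mul_right h7 (by positivity)
  rw [div_le_iff₀ (by positivity)]
  calc c ^ 2 ≤ K * (4 * C0) * I := h8
    _ ≤ K * (4 * C0 + 1) * I := by
        refine mul_le_mul_of_nonneg_right (mul_le_mul_of_nonneg_left (by linarith) hK0.le) hI0
    _ = I * (K * (4 * C0 + 1)) := by ring

/-- the window in the original variable, `β = 1/2` -/
theorem sq_window1 (G : ℝ → ℝ) (hG : Measurable G) (hb0 : ∀ u, |G (Real.exp u)| ≤ Real.exp u) (l : ℝ) (hl : 1 ≤ l) :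
    ∫ u in Icc l (l + Real.log l), (max (G (Real.exp u)) 0) ^ 2 * Real.exp (-(2 * (1 / 2) * u)) =
      ∫ y in (Real.exp l)..(Real.exp l * l), (max (G y) 0 / y) ^ 2 := by
  have hll := Real.log_nonneg hl
  have hl0 : 0 < l := by linarith
  have e2 : Real.exp (l + Real.log l) = Real.exp l * l := by rw [Real.exp_add, Real.exp_log hl0]
  have himg : Real.exp '' Icc l (l + Real.log l) = Icc (Real.exp l) (Real.exp l * l) := by
    rw [← e2]
    ext y
    constructor
    · rintro ⟨u, hu, rfl⟩
      exact ⟨Real.exp_le_exp.2 hu.1, Real.exp_le_exp.2 hu.2⟩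
    · intro hy
      have hy0 : 0 < y := (Real.exp_pos _).trans_le hy.1
      refine ⟨Real.log y, ⟨?_, ?_⟩, Real.exp_log hy0⟩
      · rw [Real.le_log_iff_exp_le hy0]; exact hy.1
      · rw [Real.log_le_iff_le_exp hy0]; exact hy.2
  have key := integral_image_eq_integral_abs_deriv_smul (s := Icc l (l + Real.log l)) measurableSet_Icc
    (f := Real.exp) (f' := Real.exp) (fun x _ => (Real.hasDerivAt_exp x).hasDerivWithinAt)
    Real.exp_injective.injOn (fun y => (max (G y) 0 / y) ^ 2)
  rw [himg] at key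
  have hle : Real.exp l ≤ Real.exp l * l := le_mul_of_one_le_right (Real.exp_pos _).le hl
  rw [intervalIntegral.integral_of_le hle, ← integral_Icc_eq_integral_Ioc, key]
  refine setIntegral_congr_fun measurableSet_Icc fun u _ => ?_
  rw [smul_eq_mul, abs_of_pos (Real.exp_pos u), div_pow]
  have e4 : Real.exp (-(2 * (1 / 2) * u)) = Real.exp u * (1 / (Real.exp u) ^ 2) := by
    rw [show -(2 * (1 / 2) * u) = -u by ring, Real.exp_neg]
    field_simp
  rw [e4]
  ring

/-- the core inequality for the centred sum, in both cases -/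
theorem core_all : ∃ c : ℝ, 0 < c ∧ ∀ᶠ t : ℝ in atTop, ∀ s : ℝ, s = 1 ∨ s = -1 →
    c * Real.exp (1 / 2 * t) ≤ ∫ v : ℝ, max (s * fc (t - v) / (1 + |kap|)) 0 * kp v := by
  obtain ⟨ρ, hz, h0, h1⟩ := H313.TK.exists_zero
  rcases h0.eq_or_lt with heq | hgt
  · exact core_fc ρ heq.symm hz
  obtain ⟨c, hc, hcore⟩ := coreL ρ hz hgt h1
  have hM : 0 < 1 + |kap| := by positivity
  obtain ⟨hmi, hmass⟩ := mass_le (1 / 2) (by norm_num) (by norm_num)
  set D : ℝ := |kap| * (∫ v, Real.exp (-(1 / 2 * v)) * kp v) with hD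
  have hlim : Tendsto (fun t : ℝ => Real.exp ((ρ.re - 1 / 2) * t)) atTop atTop :=
    Real.tendsto_exp_atTop.comp (Tendsto.const_mul_atTop (by linarith) tendsto_id)
  refine ⟨1 / (1 + |kap|), by positivity, ?_⟩
  filter_upwards [hcore, hlim.eventually_ge_atTop ((D + 1) / c)] with t k1 k2 s hs
  have k1 := k1 s hs
  rw [div_le_iff₀ hc] at k2
  have hm := fc_meas
  have i3 : Integrable (fun v => max (s * fc (t - v) / (1 + |kap|)) 0 * kp v) :=
    avg_int (fun u => max (s * fc u / (1 + |kap|)) 0) (by fun_prop) (fun u => by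
      rw [abs_of_nonneg (le_max_right _ _)]
      refine max_le ?_ (Real.exp_pos _).le
      refine (le_abs_self _).trans ?_
      rw [abs_div, abs_of_pos hM, div_le_iff₀ hM, abs_mul]
      have : |s| = 1 := by rcases hs with h | h <;> rw [h] <;> simp
      rw [this, one_mul, mul_comm]
      exact fc_abs u) t
  have i4 := (hmi.const_mul (|kap| * Real.exp (1 / 2 * t)))
  have k3 : ∫ v : ℝ, max (s * ll (t - v)) 0 * kp v ≤
      (1 + |kap|) * (∫ v : ℝ, max (s * fc (t - v) / (1 + |kap|)) 0 * kp v) + D * Real.exp (1 / 2 * t) := by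
    have e : D * Real.exp (1 / 2 * t) = ∫ v, |kap| * Real.exp (1 / 2 * t) * (Real.exp (-(1 / 2 * v)) * kp v) := by
      rw [integral_const_mul, hD]
      ring
    rw [e, ← integral_const_mul, ← integral_add (i3.const_mul _) i4]
    refine integral_mono (avg_int (fun u => max (s * ll u) 0) (by have := ll_meas; fun_prop)
      (fun u => (part_le s hs _).trans (abs_ll_le u)) t) ((i3.const_mul _).add i4) fun v => ?_
    simp only
    have h5 : max (s * ll (t - v)) 0 ≤ (1 + |kap|) * max (s * fc (t - v) / (1 + |kap|)) 0 +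
        |kap| * Real.exp (1 / 2 * t) * Real.exp (-(1 / 2 * v)) := by
      have hpos : 0 ≤ (1 + |kap|) * max (s * fc (t - v) / (1 + |kap|)) 0 := mul_nonneg hM.le (le_max_right _ _)
      refine max_le ?_ (by positivity)
      have h6 : s * fc (t - v) ≤ (1 + |kap|) * max (s * fc (t - v) / (1 + |kap|)) 0 := by
        have h7 := mul_le_mul_of_nonneg_left (le_max_left (s * fc (t - v) / (1 + |kap|)) 0) hM.le
        rwa [mul_div_cancel₀ _ hM.ne'] at h7
      have h8 : s * ll (t - v) = s * fc (t - v) + s * kap * E0 (t - v) := by unfold fc; ring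
      have h9 : s * kap * E0 (t - v) ≤ |kap| * (Real.exp (1 / 2 * t) * Real.exp (-(1 / 2 * v))) := by
        have h10 : s * kap ≤ |kap| := by
          rcases hs with rfl | rfl
          · rw [one_mul]; exact le_abs_self _
          · rw [neg_one_mul]; exact neg_le_abs _
        have h11 : 0 ≤ E0 (t - v) ∧ E0 (t - v) ≤ Real.exp (1 / 2 * t) * Real.exp (-(1 / 2 * v)) := by
          rw [← Real.exp_add]
          unfold E0
          by_cases hu : t - v ∈ Ici (0:ℝ)
          · rw [indicator_of_mem hu]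
            exact ⟨(Real.exp_pos _).le, Real.exp_le_exp.2 (by linarith)⟩
          · rw [indicator_of_notMem hu]
            exact ⟨le_rfl, (Real.exp_pos _).le⟩
        calc s * kap * E0 (t - v) ≤ |kap| * E0 (t - v) := mul_le_mul_of_nonneg_right h10 h11.1
          _ ≤ _ := mul_le_mul_of_nonneg_left h11.2 (abs_nonneg _)
      rw [h8]
      linarith
    have h6 := mul_le_mul_of_nonneg_right h5 (kp_nonneg v)
    linarith
  have k4 : (D + 1) * Real.exp (1 / 2 * t) ≤ c * Real.exp (ρ.re * t) := by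
    have e : Real.exp (ρ.re * t) = Real.exp ((ρ.re - 1 / 2) * t) * Real.exp (1 / 2 * t) := by
      rw [← Real.exp_add]; congr 1; ring
    rw [e]
    have := mul_le_mul_of_nonneg_right k2 (Real.exp_pos (1 / 2 * t)).le
    linarith
  rw [div_mul_eq_mul_div, one_mul, div_le_iff₀ hM]
  linarith

/-- **Mean squares of both parts of the centred sum over the windows.** -/
theorem centred_sq : ∃ c : ℝ, 0 < c ∧ ∀ᶠ x : ℝ in atTop, ∀ s : ℝ, s = 1 ∨ s = -1 →
    c ≤ ∫ y in x..(x * Real.log x), (max (s * (LL y - Real.sqrt y / (riemannZeta (1 / 2)).re)) 0 / y) ^ 2 := by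
  have hk : ∀ y : ℝ, Real.sqrt y / (riemannZeta (1 / 2)).re = kap * Real.sqrt y := by
    intro y
    rw [kap_eq]
    ring
  simp_rw [hk]
  obtain ⟨c, hc, hcore⟩ := core_all
  have hM : 0 < 1 + |kap| := by positivity
  have hGm : Measurable GG := by
    unfold GG
    exact (LL_meas.sub ((Measurable.ite measurableSet_Ici (by fun_prop) measurable_const).const_mul kap))
  have key : ∀ s : ℝ, s = 1 ∨ s = -1 → ∃ c : ℝ, 0 < c ∧ ∀ᶠ x : ℝ in atTop,
      c ≤ ∫ y in x..(x * Real.log x), (max (s * (LL y - kap * Real.sqrt y)) 0 / y) ^ 2 := by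
    intro s hs
    have hb : ∀ u, |s * GG (Real.exp u) / (1 + |kap|)| ≤ Real.exp u := fun u => by
      rw [GG_exp, abs_div, abs_of_pos hM, div_le_iff₀ hM, abs_mul]
      have : |s| = 1 := by rcases hs with h | h <;> rw [h] <;> simp
      rw [this, one_mul, mul_comm]
      exact fc_abs u
    obtain ⟨c1, hc1, h1⟩ := win1_sq (fun u => s * GG (Real.exp u) / (1 + |kap|))
      (by have := hGm; fun_prop) hb (1 / 2) le_rfl (by norm_num)
      ⟨c, hc, hcore.mono fun t ht => by simp_rw [GG_exp]; exact ht s hs⟩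
    refine ⟨c1, hc1, ?_⟩
    filter_upwards [Real.tendsto_log_atTop.eventually h1, eventually_ge_atTop (Real.exp 1)] with x hx hx1
    have hx0 : 0 < x := (Real.exp_pos 1).trans_le hx1
    have hx11 : 1 ≤ x := (Real.one_le_exp zero_le_one).trans hx1
    have hl1 : 1 ≤ Real.log x := by rwa [Real.le_log_iff_exp_le hx0]
    rw [sq_window1 (fun y => s * GG y / (1 + |kap|)) (by have := hGm; fun_prop) hb (Real.log x) hl1,
      Real.exp_log hx0] at hx
    refine hx.trans ?_
    have hle : x ≤ x * Real.log x := le_mul_of_one_le_right hx0.le hl1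
    have e1 : ∫ y in x..(x * Real.log x), (max (s * GG y / (1 + |kap|)) 0 / y) ^ 2 =
        ∫ y in x..(x * Real.log x), (1 / (1 + |kap|) ^ 2) * (max (s * (LL y - kap * Real.sqrt y)) 0 / y) ^ 2 := by
      refine intervalIntegral.integral_congr fun y hy => ?_
      rw [uIcc_of_le hle] at hy
      have hy1 : 1 ≤ y := hx11.trans hy.1
      have e2 : GG y = LL y - kap * Real.sqrt y := by unfold GG; rw [if_pos hy1]
      have h9 := max_div_div_right hM.le (s * (LL y - kap * Real.sqrt y)) 0
      rw [zero_div] at h9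
      simp only [e2, h9]
      generalize max (s * (LL y - kap * Real.sqrt y)) 0 = A
      generalize 1 + |kap| = M
      ring
    rw [e1, intervalIntegral.integral_const_mul]
    have hI : 0 ≤ ∫ y in x..(x * Real.log x), (max (s * (LL y - kap * Real.sqrt y)) 0 / y) ^ 2 :=
      intervalIntegral.integral_nonneg hle fun y _ => sq_nonneg _
    have h10 : 1 / (1 + |kap|) ^ 2 ≤ 1 := by
      rw [div_le_one (by positivity)]
      have := abs_nonneg kap
      nlinarith
    nlinarith
  obtain ⟨c1, hc1, k1⟩ := key 1 (Or.inl rfl)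
  obtain ⟨c2, hc2, k2⟩ := key (-1) (Or.inr rfl)
  refine ⟨min c1 c2, lt_min hc1 hc2, ?_⟩
  filter_upwards [k1, k2] with x h3 h4 s hs
  rcases hs with rfl | rfl
  · exact (min_le_left _ _).trans h3
  · exact (min_le_right _ _).trans h4

end

end Pool.Agent.V1185.Lio
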